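import Mathlib

/-!
# Greedy posets: definitions

All notions are for a subset `Q` of a partially ordered type `P`, regarded as a poset with the
induced order.  The whole poset `P` is the case `Q = Set.univ`.
-/

set_option autoImplicit false

namespace Pool.Agent.Work.MP_02c6ed_co

variable {P : Type*} [PartialOrder P]

/-- `y` covers `x` in the order induced on `Q` (for `x`, `y` in `Q`). -/
def CoversIn (Q : Set P) (x y : P) : Prop := x < y ∧ ∀ z ∈ Q, x < z → ¬ z < y

/-- `L` lists the elements of `Q`, each exactly once, in the order of a linear extension
of the order induced on `Q`: an earlier entry is never above a later one. -/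
def IsLinExt (Q : Set P) (L : List P) : Prop :=
  L.Nodup ∧ (∀ x, x ∈ L ↔ x ∈ Q) ∧ L.Pairwise (fun x y => ¬ y < x)

open Classical in
/-- The number of jumps of the list `L` over `Q`: the number of pairs `(x, y)` of consecutive
entries such that `y` does not cover `x` in the order induced on `Q`. -/
noncomputable def jumps (Q : Set P) (L : List P) : ℕ :=
  (L.zip L.tail).countP (fun p => decide (¬ CoversIn Q p.1 p.2))

/-- The jump number of the poset `Q`: the least number of jumps of a linear extension. -/
noncomputable def jumpNumber (Q : Set P) : ℕ :=
  sInf {k | ∃ L, IsLinExt Q L ∧ jumps Q L = k}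

/-- `C` is a greedy chain of `Q`: a chain contained in `Q`, such that no element of `Q \ C` lies
below an element of `C`, and maximal under inclusion among the chains of `Q` with this property. -/
def IsGreedyChain (Q C : Set P) : Prop :=
  Maximal (fun C : Set P =>
    C ⊆ Q ∧ IsChain (· ≤ ·) C ∧ ∀ x ∈ C, ∀ z ∈ Q, z ≤ x → z ∈ C) C

/-- `Run Q n`: some run of the greedy procedure started on `Q` outputs `n`.  If the current poset
is a chain the procedure stops; otherwise it deletes an arbitrary greedy chain and adds one
to the counter. -/
inductive Run : Set P → ℕ → Prop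
  | stop {Q : Set P} : IsChain (· ≤ ·) Q → Run Q 0
  | step {Q C : Set P} {n : ℕ} : ¬ IsChain (· ≤ ·) Q → IsGreedyChain Q C →
      Run (Q \ C) n → Run Q (n + 1)

/-- The poset `Q` is greedy: every run of the greedy procedure on `Q` outputs its jump number. -/
def IsGreedy (Q : Set P) : Prop := ∀ n, Run Q n → n = jumpNumber Q

end Pool.Agent.Work.MP_02c6ed_co
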