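import Pool.Agent.Work.MP_02c6ed_co.Defs

/-!
# Stages of the greedy procedure
-/

set_option autoImplicit false

namespace Pool.Agent.Work.MP_02c6ed_co

variable {P : Type*} [PartialOrder P]

/-- `Stage Q`: `Q` is what is left of the whole poset after some number of steps, each of which
deletes a greedy chain of the current poset. -/
inductive Stage : Set P → Prop
  | start : Stage Set.univ
  | step {Q C : Set P} : Stage Q → IsGreedyChain Q C → Stage (Q \ C)

end Pool.Agent.Work.MP_02c6ed_co
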