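import Pool.Agent.Work.MP_02c6ed_co.HeightOneAux
import Pool.Agent.Work.MP_02c6ed_co.LocalDefs

/-!
# A local characterisation of greedy posets
-/

set_option autoImplicit false

namespace Pool.Agent.Work.MP_02c6ed_co

open Set

variable {P : Type*} [PartialOrder P]

/-- down-closed chain of `Q` -/
def IsDC (Q C : Set P) : Prop :=
  C ⊆ Q ∧ IsChain (· ≤ ·) C ∧ ∀ x ∈ C, ∀ z ∈ Q, z ≤ x → z ∈ C

lemma isGreedyChain_iff {Q C : Set P} : IsGreedyChain Q C ↔ Maximal (IsDC Q) C := Iff.rfl

lemma exists_greedy_ge [Finite P] {Q C : Set P} (h : IsDC Q C) :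
    ∃ D, IsGreedyChain Q D ∧ C ⊆ D := by
  obtain ⟨D, h1, h2⟩ := (Set.toFinite {C : Set P | IsDC Q C}).exists_le_maximal h
  exact ⟨D, h2, h1⟩

open Classical in
/-- the least number of chains in a linear extension of `Q` -/
noncomputable def cn (Q : Set P) : ℕ := if Q = ∅ then 0 else jumpNumber Q + 1

lemma cn_empty : cn (∅ : Set P) = 0 := by simp [cn]

lemma cn_of_nonempty {Q : Set P} (h : Q.Nonempty) : cn Q = jumpNumber Q + 1 := by
  simp [cn, h.ne_empty]

open Classical in
lemma jmp_filter (L : List P) : ∀ (Q F : Set P), IsLinExt Q L → IsUpperSet Q →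
    (∀ x ∈ F, ∀ z ∈ Q, z ≤ x → z ∈ F) → jmp (L.filter (fun x => decide (x ∉ F))) ≤ jmp L := by
  induction L with
  | nil => intro Q F _ _ _; simp
  | cons x l ih =>
    intro Q F hL hQ hF
    obtain ⟨hx, hmin, hl⟩ := isLinExt_cons.1 hL
    have hQ' := isUpperSet_diff_min hQ hmin
    have h1 := ih (Q \ {x}) F hl hQ' (fun a ha z hz => hF a ha z hz.1)
    have hle : jmp l ≤ jmp (x :: l) := by
      cases l with
      | nil => simp [jmp_nil]
      | cons y t => rw [jmp_cons_cons]; omega
    by_cases hxF : x ∈ F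
    · rw [List.filter_cons_of_neg (by simpa using hxF)]
      exact h1.trans hle
    · rw [List.filter_cons_of_pos (by simpa using hxF)]
      cases l with
      | nil => simp
      | cons y t =>
        rw [jmp_cons_cons]
        by_cases hxy : x ⋖ y
        · have hyF : y ∉ F := fun h => hxF (hF y h x hx hxy.le)
          rw [List.filter_cons_of_pos (by simpa using hyF)] at h1 ⊢
          rw [jmp_cons_cons, if_pos hxy]
          omega
        · rw [if_neg hxy]
          have := jmp_cons_le x (List.filter (fun x => decide (x ∉ F)) (y :: t))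
          omega

open Classical in
lemma isLinExt_filter {Q F : Set P} {L : List P} (hL : IsLinExt Q L) :
    IsLinExt (Q \ F) (L.filter (fun x => decide (x ∉ F))) := by
  obtain ⟨h1, h2, h3⟩ := hL
  refine ⟨h1.filter _, fun x => ?_, h3.filter _⟩
  simp [List.mem_filter, h2]

lemma cn_mono [Finite P] {Q F : Set P} (hQ : IsUpperSet Q)
    (hF : ∀ x ∈ F, ∀ z ∈ Q, z ≤ x → z ∈ F) : cn (Q \ F) ≤ cn Q := by
  classical
  rcases (Q \ F).eq_empty_or_nonempty with h | h
  · rw [h, cn_empty]; exact Nat.zero_le _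
  · have hne : Q.Nonempty := h.mono sdiff_subset
    rw [cn_of_nonempty h, cn_of_nonempty hne]
    obtain ⟨L, h1, h2⟩ := jumpNumber_mem hQ
    have h3 := jmp_filter L Q F h1 hQ hF
    have hup : IsUpperSet (Q \ F) := by
      rintro a b hab ⟨ha1, ha2⟩
      exact ⟨hQ hab ha1, fun hb => ha2 (hF b hb a ha1 hab)⟩
    have h4 := jumpNumber_le hup (isLinExt_filter (F := F) h1)
    omega

lemma eq_of_chain {Q C : Set P} (hQ : IsChain (· ≤ ·) Q) (hC : IsGreedyChain Q C) : C = Q :=
  Subset.antisymm hC.1.1 (hC.2 (greedy_self_of_chain hQ).1 hC.1.1)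

lemma cn_le_greedy [Finite P] {Q C : Set P} (hQ : IsUpperSet Q) (hC : IsGreedyChain Q C) :
    cn Q ≤ cn (Q \ C) + 1 := by
  rcases Q.eq_empty_or_nonempty with he | hne
  · rw [he, cn_empty]; exact Nat.zero_le _
  · have hCne := greedy_nonempty hne hC
    obtain ⟨L', h1, h2⟩ := jumpNumber_mem (diff_upper hQ hC.1.2.2)
    obtain ⟨c, -, -, t, g1, -, g2, g3⟩ := chain_lemma C.ncard Q C hQ hC hCne rfl L' h1
    have h4 := jumpNumber_le hQ g1
    rw [cn_of_nonempty hne]
    rcases (Q \ C).eq_empty_or_nonempty with h | h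
    · rw [h, cn_empty]
      rw [h] at h1
      have hL' : L' = [] := by
        cases L' with
        | nil => rfl
        | cons a t => exact absurd (isLinExt_cons.1 h1).1 (by simp)
      have := g2 hL'
      omega
    · rw [cn_of_nonempty h]
      omega

lemma cn_le_dc [Finite P] {Q C : Set P} (hQ : IsUpperSet Q) (hC : IsDC Q C) :
    cn Q ≤ cn (Q \ C) + 1 := by
  obtain ⟨D, h1, h2⟩ := exists_greedy_ge hC
  have h3 := cn_le_greedy hQ h1
  have h4 : cn (Q \ D) ≤ cn (Q \ C) := by
    have : Q \ D = (Q \ C) \ D := by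
      ext z
      simp only [mem_sdiff]
      constructor
      · rintro ⟨a, b⟩; exact ⟨⟨a, fun h => b (h2 h)⟩, b⟩
      · rintro ⟨⟨a, -⟩, b⟩; exact ⟨a, b⟩
    rw [this]
    exact cn_mono (diff_upper hQ hC.2.2) (fun x hx z hz hzx => h1.1.2.2 x hx z hz.1 hzx)
  omega

/-- first block of a linear extension -/
lemma first_block (L : List P) : ∀ (Q : Set P), IsUpperSet Q → IsLinExt Q L → L ≠ [] →
    ∃ K M : List P, L = K ++ M ∧ IsDC Q {z | z ∈ K} ∧ (∃ x t, L = x :: t ∧ x ∈ K) ∧
      (M ≠ [] → jmp M + 1 ≤ jmp L) := by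
  classical
  induction L with
  | nil => intro Q _ _ h; exact absurd rfl h
  | cons x l ih =>
    intro Q hQ hL _
    obtain ⟨hx, hmin, hl⟩ := isLinExt_cons.1 hL
    have hQ' := isUpperSet_diff_min hQ hmin
    have hsing : IsDC Q {z | z ∈ [x]} := by
      refine ⟨fun z hz => ?_, ?_, fun a ha z hz hza => ?_⟩
      · simp only [List.mem_singleton, mem_ofPred_eq] at hz; exact hz ▸ hx
      · intro a ha b hb hab
        simp only [List.mem_singleton, mem_ofPred_eq] at ha hb
        exact absurd (ha.trans hb.symm) hab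
      · simp only [List.mem_singleton, mem_ofPred_eq] at ha ⊢
        subst ha
        rcases hza.lt_or_eq with h | h
        · exact absurd h (hmin z hz)
        · exact h
    cases l with
    | nil => exact ⟨[x], [], rfl, hsing, ⟨x, [], rfl, by simp⟩, fun h => absurd rfl h⟩
    | cons y t =>
      by_cases hxy : x ⋖ y
      · obtain ⟨K, M, h1, h2, ⟨x', t', h3, h4⟩, h5⟩ := ih (Q \ {x}) hQ' hl (by simp)
        have hyx : y = x' := by
          have := congrArg List.head? h3
          simpa using this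
        subst hyx
        have hminy := (isLinExt_cons.1 hl).2.1
        refine ⟨x :: K, M, by rw [h1]; rfl, ⟨?_, ?_, ?_⟩, ⟨x, y :: t, rfl, by simp⟩, ?_⟩
        · intro z hz
          simp only [List.mem_cons, mem_ofPred_eq] at hz
          rcases hz with h | h
          · exact h ▸ hx
          · exact (h2.1 h).1
        · have hlow : ∀ z ∈ K, x ≤ z := by
            intro z hz
            rcases h2.2.1.total h4 hz with h | h
            · exact hxy.le.trans h
            · rcases h.lt_or_eq with h' | h'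
              · exact absurd h' (hminy z (h2.1 hz))
              · exact h' ▸ hxy.le
          intro a ha b hb hab
          simp only [List.mem_cons, mem_ofPred_eq] at ha hb
          rcases ha with ha | ha <;> rcases hb with hb | hb
          · exact absurd (ha.trans hb.symm) hab
          · exact Or.inl (ha ▸ hlow b hb)
          · exact Or.inr (hb ▸ hlow a ha)
          · exact h2.2.1 ha hb hab
        · intro a ha z hz hza
          simp only [List.mem_cons, mem_ofPred_eq] at ha ⊢
          by_cases hzx : z = x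
          · exact Or.inl hzx
          · rcases ha with ha | ha
            · subst ha
              exact absurd (lt_of_le_of_ne hza hzx) (hmin z hz)
            · exact Or.inr (h2.2.2 a ha z ⟨hz, hzx⟩ hza)
        · intro hM
          rw [jmp_cons_cons, if_pos hxy]
          have := h5 hM
          omega
      · refine ⟨[x], y :: t, rfl, hsing, ⟨x, y :: t, rfl, by simp⟩, fun _ => ?_⟩
        rw [jmp_cons_cons, if_neg hxy]
        omega

lemma exists_opt [Finite P] {Q : Set P} (hQ : IsUpperSet Q) (hne : Q.Nonempty) :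
    ∃ C, IsGreedyChain Q C ∧ cn (Q \ C) + 1 ≤ cn Q := by
  classical
  obtain ⟨L, h1, h2⟩ := jumpNumber_mem hQ
  have hL0 : L ≠ [] := by
    rintro rfl
    exact hne.ne_empty (isLinExt_nil_iff.1 h1)
  obtain ⟨K, M, e, hK, -, hM⟩ := first_block L Q hQ h1 hL0
  obtain ⟨C, hC, hKC⟩ := exists_greedy_ge hK
  refine ⟨C, hC, ?_⟩
  rw [cn_of_nonempty hne]
  rcases (Q \ C).eq_empty_or_nonempty with h | h
  · rw [h, cn_empty]; omega
  · rw [cn_of_nonempty h]
    have hMne : M ≠ [] := by
      rintro rfl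
      obtain ⟨z, hz⟩ := h
      have : z ∈ L := (h1.2.1 z).2 hz.1
      rw [e, List.append_nil] at this
      exact hz.2 (hKC this)
    have hfil : L.filter (fun x => decide (x ∉ C)) = M.filter (fun x => decide (x ∉ C)) := by
      rw [e, List.filter_append]
      have : K.filter (fun x => decide (x ∉ C)) = [] := by
        rw [List.filter_eq_nil_iff]
        intro a ha
        simpa using hKC ha
      rw [this, List.nil_append]
    have hMlin : IsLinExt (Q \ {z | z ∈ K}) M := by
      obtain ⟨a1, a2, a3⟩ := h1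
      subst e
      rw [List.nodup_append] at a1
      rw [List.pairwise_append] at a3
      refine ⟨a1.2.1, fun x => ?_, a3.2.1⟩
      constructor
      · intro hx
        refine ⟨(a2 x).1 (List.mem_append_right _ hx), fun hxK => ?_⟩
        exact a1.2.2 x hxK x hx rfl
      · rintro ⟨hx, hxK⟩
        rcases List.mem_append.1 ((a2 x).2 hx) with h' | h'
        · exact absurd h' hxK
        · exact h'
    have h3 := jmp_filter M _ C hMlin (diff_upper hQ hK.2.2)
      (fun x hx z hz hzx => hC.1.2.2 x hx z hz.1 hzx)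
    have h4 := jumpNumber_le (diff_upper hQ hC.1.2.2) (isLinExt_filter (F := C) h1)
    rw [hfil] at h4
    have h5 := hM hMne
    omega

lemma run_empty {n : ℕ} (h : Run (∅ : Set P) n) : n = 0 := by
  cases h with
  | stop _ => rfl
  | step h _ _ => exact absurd (by simp [IsChain]) h

lemma jumpNumber_empty : jumpNumber (∅ : Set P) = 0 := by
  have := jumpNumber_le (Q := (∅ : Set P)) (fun _ _ _ h => h) (isLinExt_nil_iff.2 rfl)
  rw [jmp_nil] at this
  omega

lemma isGreedy_empty : IsGreedy (∅ : Set P) := by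
  intro n hn
  rw [jumpNumber_empty, run_empty hn]

lemma greedy_step [Finite P] {Q C : Set P} (hQ : IsUpperSet Q) (hne : Q.Nonempty)
    (hG : IsGreedy Q) (hC : IsGreedyChain Q C) :
    IsGreedy (Q \ C) ∧ cn Q = cn (Q \ C) + 1 := by
  by_cases hch : IsChain (· ≤ ·) Q
  · have hCQ := eq_of_chain hch hC
    subst hCQ
    have h0 := hG 0 (Run.stop hch)
    rw [Set.sdiff_self]
    refine ⟨isGreedy_empty, ?_⟩
    rw [cn_of_nonempty hne, cn_empty, ← h0]
  · have hdne : (Q \ C).Nonempty := by
      rw [Set.nonempty_iff_ne_empty]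
      intro h
      rw [Set.sdiff_eq_empty] at h
      exact hch (hC.1.2.1.mono h)
    have h1 := cn_le_greedy hQ hC
    rw [cn_of_nonempty hne, cn_of_nonempty hdne] at h1 ⊢
    have key : ∀ n, Run (Q \ C) n → n = jumpNumber (Q \ C) := by
      intro n hn
      have h2 := hG (n + 1) (Run.step hch hC hn)
      have h3 := jumpNumber_le_of_run (diff_upper hQ hC.1.2.2) hn
      omega
    refine ⟨key, ?_⟩
    obtain ⟨n, hn⟩ := exists_run (Q \ C)
    have h2 := hG (n + 1) (Run.step hch hC hn)
    have h3 := key n hn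
    omega

lemma greedy_of_const [Finite P] {Q : Set P} (hQ : IsUpperSet Q) (hne : Q.Nonempty)
    (h1 : ∀ C, IsGreedyChain Q C → IsGreedy (Q \ C))
    (h2 : ∀ C D, IsGreedyChain Q C → IsGreedyChain Q D → cn (Q \ C) ≤ cn (Q \ D)) :
    IsGreedy Q := by
  obtain ⟨C0, hC0, hc0⟩ := exists_opt hQ hne
  intro n hn
  apply le_antisymm _ (jumpNumber_le_of_run hQ hn)
  cases hn with
  | stop _ => exact Nat.zero_le _
  | @step _ C k hch hC hk =>
    have hdne : (Q \ C).Nonempty := by
      rw [Set.nonempty_iff_ne_empty]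
      intro h
      rw [Set.sdiff_eq_empty] at h
      exact hch (hC.1.2.1.mono h)
    have a := h1 C hC k hk
    have b := h2 C C0 hC hC0
    rw [cn_of_nonempty hdne] at b
    rw [cn_of_nonempty hne] at hc0
    omega

/-- removing a lower part of a greedy chain -/
lemma greedy_diff {R A G : Set P} (hA : IsDC R A) (hG : IsGreedyChain R G) (hAG : A ⊆ G)
    (hne : (G \ A).Nonempty) : IsGreedyChain (R \ A) (G \ A) := by
  refine ⟨⟨?_, ?_, ?_⟩, ?_⟩
  · exact fun z hz => ⟨hG.1.1 hz.1, hz.2⟩
  · exact hG.1.2.1.mono sdiff_subset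
  · intro x hx z hz hzx
    exact ⟨hG.1.2.2 x hx.1 z hz.1 hzx, hz.2⟩
  · intro X hX hsub
    obtain ⟨f, hf⟩ := hne
    have key : A ∪ X ⊆ G := by
      refine hG.2 ⟨?_, ?_, ?_⟩ ?_
      · rintro z (h | h)
        · exact hA.1 h
        · exact (hX.1 h).1
      · have comp : ∀ a ∈ A, ∀ x ∈ X, a ≤ x ∨ x ≤ a := by
          intro a ha x hx
          have haf : a ≤ f := by
            rcases hG.1.2.1.total (hAG ha) hf.1 with h | h
            · exact h
            · exact absurd (hA.2.2 a ha f (hG.1.1 hf.1) h) hf.2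
          rcases hX.2.1.total (hsub hf) hx with h | h
          · exact Or.inl (haf.trans h)
          · have hxG : x ∈ G := hG.1.2.2 f hf.1 x (hX.1 hx).1 h
            exact hG.1.2.1.total (hAG ha) hxG
        intro a ha b hb hab
        rcases ha with ha | ha <;> rcases hb with hb | hb
        · exact hA.2.1 ha hb hab
        · exact comp a ha b hb
        · exact (comp b hb a ha).symm
        · exact hX.2.1 ha hb hab
      · intro x hx z hz hzx
        by_cases hzA : z ∈ A
        · exact Or.inl hzA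
        · rcases hx with hx | hx
          · exact absurd (hA.2.2 x hx z hz hzx) hzA
          · exact Or.inr (hX.2.2 x hx z ⟨hz, hzA⟩ hzx)
      · intro z hz
        by_cases hzA : z ∈ A
        · exact Or.inl hzA
        · exact Or.inr (hsub ⟨hz, hzA⟩)
    intro z hz
    exact ⟨key (Or.inr hz), (hX.1 hz).2⟩

lemma dc_diff {Q C D : Set P} (hC : IsDC Q C) : IsDC (Q \ D) (C \ D) :=
  ⟨fun _ hz => ⟨hC.1 hz.1, hz.2⟩, hC.2.1.mono sdiff_subset,
    fun x hx z hz hzx => ⟨hC.2.2 x hx.1 z hz.1 hzx, hz.2⟩⟩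

omit [PartialOrder P] in
lemma diff_diff_swap (Q C D : Set P) : (Q \ C) \ (D \ C) = (Q \ D) \ (C \ D) := by
  ext z
  simp only [mem_sdiff]
  tauto

/-- the main inequality -/
lemma main_ineq [Finite P] {Q C D : Set P} (hQ : IsUpperSet Q) (hC : IsGreedyChain Q C)
    (hD : IsGreedyChain Q D) (hG : IsGreedy (Q \ C)) (hne : C ≠ D)
    (hn : ¬ IsGreedyChain (Q \ D) (C \ D)) : cn (Q \ D) ≤ cn (Q \ C) := by
  have hCD : (C \ D).Nonempty := by
    rw [Set.nonempty_iff_ne_empty]
    intro h
    rw [Set.sdiff_eq_empty] at h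
    exact hne (Subset.antisymm h (hC.2 hD.1 h))
  have hR1 : IsUpperSet (Q \ C) := diff_upper hQ hC.1.2.2
  have hR2 : IsUpperSet (Q \ D) := diff_upper hQ hD.1.2.2
  -- the extension of `C \ D`
  obtain ⟨G, hGg, hGsub⟩ := exists_greedy_ge (dc_diff (D := D) hC.1)
  have hGne : (G \ (C \ D)).Nonempty := by
    rw [Set.nonempty_iff_ne_empty]
    intro h
    rw [Set.sdiff_eq_empty] at h
    exact hn (Subset.antisymm h hGsub ▸ hGg)
  obtain ⟨y, hy, hyl⟩ := exists_least (hGg.1.2.1.mono sdiff_subset) hGne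
  have hyG : y ∈ G := hy.1
  have hyQ : y ∈ Q := (hGg.1.1 hyG).1
  have hyD : y ∉ D := (hGg.1.1 hyG).2
  have hyC : y ∉ C := fun h => hy.2 ⟨h, hyD⟩
  have hylow : ∀ z ∈ Q, z < y → z ∈ C ∨ z ∈ D := by
    intro z hz hzy
    by_contra hcon
    push Not at hcon
    have hzG : z ∈ G := hGg.1.2.2 y hyG z ⟨hz, hcon.2⟩ hzy.le
    exact absurd (hyl z ⟨hzG, fun h => hcon.1 h.1⟩) (not_le_of_gt hzy)
  have hCy : ∀ c ∈ C \ D, c < y := by
    intro c hc
    rcases hGg.1.2.1.total (hGsub hc) hyG with h | h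
    · exact lt_of_le_of_ne h (fun h' => hyC (h' ▸ hc.1))
    · exact absurd (hC.1.2.2 c hc.1 y hyQ h) hyC
  -- the chain `B` of `Q \ C`
  have hB0 : IsDC (Q \ C) (insert y {d | d ∈ D ∧ d ∉ C ∧ d < y}) := by
    refine ⟨?_, ?_, ?_⟩
    · rintro z (h | ⟨h1, h2, -⟩)
      · exact h ▸ ⟨hyQ, hyC⟩
      · exact ⟨hD.1.1 h1, h2⟩
    · apply IsChain.insert
      · exact hD.1.2.1.mono (fun z hz => hz.1)
      · rintro b ⟨-, -, hb⟩ _
        exact Or.inr hb.le
    · rintro x hx z hz hzx
      by_cases hzy : z = y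
      · exact Or.inl hzy
      · right
        have hzy' : z < y := by
          rcases hx with h | ⟨-, -, h⟩
          · exact lt_of_le_of_ne (h ▸ hzx) hzy
          · exact hzx.trans_lt h
        rcases hylow z hz.1 hzy' with h | h
        · exact absurd h hz.2
        · exact ⟨h, hz.2, hzy'⟩
  obtain ⟨B, hB, hBsub⟩ := exists_greedy_ge hB0
  have hyB : y ∈ B := hBsub (Or.inl rfl)
  have hBD : ∀ d ∈ B, d ∈ D → d < y := by
    intro d hdB hdD
    rcases hB.1.2.1.total hyB hdB with h | h
    · exact absurd (hD.1.2.2 d hdD y hyQ h) hyD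
    · exact lt_of_le_of_ne h (fun h' => hyD (h' ▸ hdD))
  have hBy : ∀ b ∈ B, b ∉ D → y ≤ b := by
    intro b hb hbD
    rcases hB.1.2.1.total hyB hb with h | h
    · exact h
    · rcases h.lt_or_eq with h' | h'
      · rcases hylow b (hB.1.1 hb).1 h' with h'' | h''
        · exact absurd h'' (hB.1.1 hb).2
        · exact absurd h'' hbD
      · exact h'.ge
  -- the chain of `Q \ D`
  have hF0 : IsDC (Q \ D) ((C \ D) ∪ (B \ D)) := by
    refine ⟨?_, ?_, ?_⟩
    · rintro z (h | h)
      · exact ⟨hC.1.1 h.1, h.2⟩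
      · exact ⟨(hB.1.1 h.1).1, h.2⟩
    · intro a ha b hb hab
      rcases ha with ha | ha <;> rcases hb with hb | hb
      · exact hC.1.2.1 ha.1 hb.1 hab
      · exact Or.inl ((hCy a ha).le.trans (hBy b hb.1 hb.2))
      · exact Or.inr ((hCy b hb).le.trans (hBy a ha.1 ha.2))
      · exact hB.1.2.1 ha.1 hb.1 hab
    · intro x hx z hz hzx
      by_cases hzC : z ∈ C
      · exact Or.inl ⟨hzC, hz.2⟩
      · rcases hx with hx | hx
        · exact absurd (hC.1.2.2 x hx.1 z hz.1 hzx) hzC
        · exact Or.inr ⟨hB.1.2.2 x hx.1 z ⟨hz.1, hzC⟩ hzx, hz.2⟩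
  obtain ⟨G', hG', hG'sub⟩ := exists_greedy_ge hF0
  have hi : cn (Q \ D) ≤ cn ((Q \ D) \ G') + 1 := cn_le_greedy hR2 hG'
  have hR1ne : (Q \ C).Nonempty := ⟨y, hyQ, hyC⟩
  obtain ⟨hG1, hcn1⟩ := greedy_step hR1 hR1ne hG hB
  have hR1B : IsUpperSet ((Q \ C) \ B) := diff_upper hR1 hB.1.2.2
  -- the remaining part of `D`
  rcases ((D \ C) \ B).eq_empty_or_nonempty with he | hDne
  · -- everything of `D` is used
    have hsub : cn ((Q \ D) \ G') ≤ cn ((Q \ C) \ B) := by
      have e1 : (Q \ D) \ G' = ((Q \ C) \ B) \ G' := by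
        ext z
        simp only [mem_sdiff]
        constructor
        · rintro ⟨⟨a, b⟩, c⟩
          refine ⟨⟨⟨a, fun h => c (hG'sub (Or.inl ⟨h, b⟩))⟩, fun h => ?_⟩, c⟩
          exact c (hG'sub (Or.inr ⟨h, b⟩))
        · rintro ⟨⟨⟨a, b⟩, c⟩, d⟩
          refine ⟨⟨a, fun h => ?_⟩, d⟩
          have : z ∈ (D \ C) \ B := ⟨⟨h, b⟩, c⟩
          rw [he] at this
          exact this
      rw [e1]
      refine cn_mono hR1B (fun x hx z hz hzx => ?_)
      have hzD : z ∉ D := by
        intro h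
        have : z ∈ (D \ C) \ B := ⟨⟨h, hz.1.2⟩, hz.2⟩
        rw [he] at this
        exact this
      exact hG'.1.2.2 x hx z ⟨hz.1.1, hzD⟩ hzx
    omega
  · have hDdc : IsDC ((Q \ C) \ B) ((D \ C) \ B) := dc_diff (dc_diff hD.1)
    obtain ⟨H, hH, hHsub⟩ := exists_greedy_ge hDdc
    have hne2 : ((Q \ C) \ B).Nonempty := hDne.mono hDdc.1
    obtain ⟨-, hcn2⟩ := greedy_step hR1B hne2 hG1 hH
    -- compare
    have hJ : IsDC ((Q \ D) \ G') ((H \ D) \ G') := by
      refine ⟨?_, hH.1.2.1.mono (sdiff_subset.trans sdiff_subset), ?_⟩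
      · rintro z ⟨⟨h1, h2⟩, h3⟩
        exact ⟨⟨(hH.1.1 h1).1.1, h2⟩, h3⟩
      · rintro x ⟨⟨h1, h2⟩, h3⟩ z hz hzx
        refine ⟨⟨hH.1.2.2 x h1 z ⟨⟨hz.1.1, fun h => ?_⟩, fun h => ?_⟩ hzx, hz.1.2⟩, hz.2⟩
        · exact hz.2 (hG'sub (Or.inl ⟨h, hz.1.2⟩))
        · exact hz.2 (hG'sub (Or.inr ⟨h, hz.1.2⟩))
    have h3 := cn_le_dc (diff_upper hR2 hG'.1.2.2) hJ
    have h4 : cn (((Q \ D) \ G') \ ((H \ D) \ G')) ≤ cn (((Q \ C) \ B) \ H) := by
      have e1 : ((Q \ D) \ G') \ ((H \ D) \ G') = (((Q \ C) \ B) \ H) \ G' := by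
        ext z
        simp only [mem_sdiff]
        constructor
        · rintro ⟨⟨⟨a, b⟩, c⟩, d⟩
          refine ⟨⟨⟨⟨a, fun h => c (hG'sub (Or.inl ⟨h, b⟩))⟩, fun h => ?_⟩, fun h => ?_⟩, c⟩
          · exact c (hG'sub (Or.inr ⟨h, b⟩))
          · exact d ⟨⟨h, b⟩, c⟩
        · rintro ⟨⟨⟨⟨a, b⟩, c⟩, d⟩, e⟩
          refine ⟨⟨⟨a, fun h => ?_⟩, e⟩, fun h => d h.1.1⟩
          exact d (hHsub ⟨⟨h, b⟩, c⟩)
      rw [e1]
      refine cn_mono (diff_upper hR1B hH.1.2.2) (fun x hx z hz hzx => ?_)
      have hzD : z ∉ D := fun h => hz.2 (hHsub ⟨⟨h, hz.1.1.2⟩, hz.1.2⟩)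
      exact hG'.1.2.2 x hx z ⟨hz.1.1.1, hzD⟩ hzx
    omega

lemma Stage.upper {Q : Set P} (h : Stage Q) : IsUpperSet Q := by
  induction h with
  | start => exact fun _ _ _ _ => mem_univ _
  | step _ hC ih => exact diff_upper ih hC.1.2.2

lemma Stage.greedy [Finite P] (hG : IsGreedy (univ : Set P)) {Q : Set P} (h : Stage Q) :
    IsGreedy Q := by
  induction h with
  | start => exact hG
  | @step Q C hs hC ih =>
    rcases Q.eq_empty_or_nonempty with he | hne
    · subst he
      rw [Set.empty_sdiff]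
      exact isGreedy_empty
    · exact (greedy_step hs.upper hne ih hC).1

/-- the interchange property of the stage `Q` -/
def Interch (Q : Set P) : Prop := ∀ C D, IsGreedyChain Q C → IsGreedyChain Q D →
  IsGreedyChain (Q \ D) (C \ D) → IsGreedyChain (Q \ C) (D \ C)

lemma interch_of_greedy [Finite P] {Q : Set P} (hQ : IsUpperSet Q) (hG : IsGreedy Q) :
    Interch Q := by
  intro C D hC hD h
  by_contra hn
  have hne : C ≠ D := by
    rintro rfl
    exact hn h
  have hCD : (C \ D).Nonempty := by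
    rw [Set.nonempty_iff_ne_empty]
    intro h
    rw [Set.sdiff_eq_empty] at h
    exact hne (Subset.antisymm h (hC.2 hD.1 h))
  have hDC : (D \ C).Nonempty := by
    rw [Set.nonempty_iff_ne_empty]
    intro h
    rw [Set.sdiff_eq_empty] at h
    exact hne (Subset.antisymm (hD.2 hC.1 h) h)
  have hQne : Q.Nonempty := hCD.mono (sdiff_subset.trans hC.1.1)
  obtain ⟨g1, c1⟩ := greedy_step hQ hQne hG hC
  obtain ⟨g2, c2⟩ := greedy_step hQ hQne hG hD
  have hne1 : (Q \ C).Nonempty := hDC.mono (fun z hz => ⟨hD.1.1 hz.1, hz.2⟩)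
  have hne2 : (Q \ D).Nonempty := hCD.mono (fun z hz => ⟨hC.1.1 hz.1, hz.2⟩)
  have hR1 : IsUpperSet (Q \ C) := diff_upper hQ hC.1.2.2
  have hR2 : IsUpperSet (Q \ D) := diff_upper hQ hD.1.2.2
  obtain ⟨g3, c3⟩ := greedy_step hR2 hne2 g2 h
  obtain ⟨G, hGg, hGs⟩ := exists_greedy_ge (dc_diff (D := C) hD.1)
  have hGne : (G \ (D \ C)).Nonempty := by
    rw [Set.nonempty_iff_ne_empty]
    intro h
    rw [Set.sdiff_eq_empty] at h
    exact hn (Subset.antisymm h hGs ▸ hGg)
  obtain ⟨g4, c4⟩ := greedy_step hR1 hne1 g1 hGg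
  have hF := greedy_diff (dc_diff (D := C) hD.1) hGg hGs hGne
  rw [diff_diff_swap] at hF
  have hSne : ((Q \ D) \ (C \ D)).Nonempty := hGne.mono hF.1.1
  obtain ⟨-, c5⟩ := greedy_step (diff_upper hR2 h.1.2.2) hSne g3 hF
  have e : ((Q \ D) \ (C \ D)) \ (G \ (D \ C)) = (Q \ C) \ G := by
    rw [← diff_diff_swap]
    ext z
    simp only [mem_sdiff]
    constructor
    · rintro ⟨⟨⟨a, b⟩, c⟩, d⟩
      refine ⟨⟨a, b⟩, fun h => d ⟨h, c⟩⟩
    · rintro ⟨⟨a, b⟩, c⟩
      exact ⟨⟨⟨a, b⟩, fun h => c (hGs h)⟩, fun h => c h.1⟩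
  rw [e] at c5
  omega

theorem greedy_iff_interch [Finite P] :
    IsGreedy (univ : Set P) ↔ ∀ Q : Set P, Stage Q → Interch Q := by
  constructor
  · intro hG Q hQ
    exact interch_of_greedy hQ.upper (hQ.greedy hG)
  · intro hI
    suffices h : ∀ (n : ℕ) (Q : Set P), Q.ncard = n → Stage Q → IsGreedy Q from
      h _ univ rfl Stage.start
    intro n
    induction n using Nat.strong_induction_on with
    | _ n ih =>
      intro Q hn hQ
      rcases Q.eq_empty_or_nonempty with he | hne
      · subst he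
        exact isGreedy_empty
      · have h1 : ∀ C, IsGreedyChain Q C → IsGreedy (Q \ C) := by
          intro C hC
          have hCne := greedy_nonempty hne hC
          refine ih _ ?_ (Q \ C) rfl (hQ.step hC)
          rw [← hn]
          apply Set.ncard_lt_ncard _ (Set.toFinite Q)
          refine ⟨sdiff_subset, fun h => ?_⟩
          obtain ⟨c, hc⟩ := hCne
          exact (h (hC.1.1 hc)).2 hc
        refine greedy_of_const hQ.upper hne h1 ?_
        intro C D hC hD
        by_cases hCD : C = D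
        · rw [hCD]
        · by_cases hc : IsGreedyChain (Q \ C) (D \ C)
          · have hc' := hI Q hQ D C hD hC hc
            have hne1 : (D \ C).Nonempty := by
              rw [Set.nonempty_iff_ne_empty]
              intro h
              rw [Set.sdiff_eq_empty] at h
              exact hCD (Subset.antisymm (hD.2 hC.1 h) h)
            have hne2 : (C \ D).Nonempty := by
              rw [Set.nonempty_iff_ne_empty]
              intro h
              rw [Set.sdiff_eq_empty] at h
              exact hCD (Subset.antisymm h (hC.2 hD.1 h))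
            have a := (greedy_step (diff_upper hQ.upper hC.1.2.2) (hne1.mono hc.1.1)
              (h1 C hC) hc).2
            have b := (greedy_step (diff_upper hQ.upper hD.1.2.2) (hne2.mono hc'.1.1)
              (h1 D hD) hc').2
            rw [diff_diff_swap] at a
            omega
          · exact main_ineq hQ.upper hD hC (h1 D hD) (fun h => hCD h.symm) hc

end Pool.Agent.Work.MP_02c6ed_co
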