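import Pool.Agent.Work.MP_02c6ed_co.Defs

set_option autoImplicit false

namespace Pool.Agent.Work.MP_02c6ed_co

open Set

variable {P : Type*} [PartialOrder P]

/-- `x` is closing in `Q` if it is the only lower cover inside `Q` of some element above it. -/
def Closing (Q : Set P) (x : P) : Prop := ∃ y, x ⋖ y ∧ ∀ w, w ⋖ y → w ∈ Q → w = x

open Classical in
/-- number of closing elements along a list -/
noncomputable def bcount : Set P → List P → ℕ
  | _, [] => 0
  | Q, x :: l => (if Closing Q x then 1 else 0) + bcount (Q \ {x}) l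

open Classical in
/-- jumps with respect to the cover relation of `P` -/
noncomputable def jmp (L : List P) : ℕ :=
  (L.zip L.tail).countP (fun p => decide (¬ p.1 ⋖ p.2))

lemma coversIn_iff {Q : Set P} (hQ : IsUpperSet Q) {x y : P} (hx : x ∈ Q) :
    CoversIn Q x y ↔ x ⋖ y := by
  constructor
  · rintro ⟨h1, h2⟩
    exact ⟨h1, fun z hz1 hz2 => h2 z (hQ hz1.le hx) hz1 hz2⟩
  · rintro ⟨h1, h2⟩
    exact ⟨h1, fun z _ hz1 hz2 => h2 hz1 hz2⟩

lemma jumps_eq {Q : Set P} (hQ : IsUpperSet Q) (L : List P) (hL : ∀ x ∈ L, x ∈ Q) :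
    jumps Q L = jmp L := by
  unfold jumps jmp
  apply List.countP_congr
  rintro ⟨a, b⟩ hab
  have ha : a ∈ Q := hL a (List.of_mem_zip hab).1
  simp [coversIn_iff hQ ha]

lemma jmp_nil : jmp ([] : List P) = 0 := by simp [jmp]

lemma jmp_single (x : P) : jmp [x] = 0 := by simp [jmp]

open Classical in
lemma jmp_cons_cons (x y : P) (l : List P) :
    jmp (x :: y :: l) = (if x ⋖ y then 0 else 1) + jmp (y :: l) := by
  unfold jmp
  simp only [List.tail_cons, List.zip_cons_cons, List.countP_cons]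
  by_cases h : x ⋖ y
  · simp [h]
  · simp [h]; ring

lemma jmp_cons_le (x : P) (l : List P) : jmp (x :: l) ≤ 1 + jmp l := by
  cases l with
  | nil => simp [jmp_single]
  | cons y l =>
    rw [jmp_cons_cons]
    split_ifs <;> omega

lemma isLinExt_cons {Q : Set P} {x : P} {l : List P} :
    IsLinExt Q (x :: l) ↔ x ∈ Q ∧ (∀ z ∈ Q, ¬ z < x) ∧ IsLinExt (Q \ {x}) l := by
  constructor
  · rintro ⟨hn, hm, hp⟩
    rw [List.nodup_cons] at hn
    rw [List.pairwise_cons] at hp
    have hxQ : x ∈ Q := (hm x).1 (by simp)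
    refine ⟨hxQ, ?_, hn.2, ?_, hp.2⟩
    · intro z hz hzx
      have hz' := (hm z).2 hz
      rcases List.mem_cons.1 hz' with h | h
      · exact absurd hzx (by rw [h]; exact lt_irrefl _)
      · exact hp.1 z h hzx
    · intro z
      constructor
      · intro hz
        refine ⟨(hm z).1 (List.mem_cons_of_mem _ hz), ?_⟩
        intro h
        rw [mem_singleton_iff] at h
        exact hn.1 (h ▸ hz)
      · rintro ⟨hz, hzx⟩
        rcases List.mem_cons.1 ((hm z).2 hz) with h | h
        · exact absurd h hzx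
        · exact h
  · rintro ⟨hx, hmin, hn, hm, hp⟩
    refine ⟨?_, ?_, ?_⟩
    · rw [List.nodup_cons]
      refine ⟨fun h => ?_, hn⟩
      exact ((hm x).1 h).2 rfl
    · intro z
      rw [List.mem_cons, hm z]
      constructor
      · rintro (h | h)
        · exact h ▸ hx
        · exact h.1
      · intro h
        by_cases hzx : z = x
        · exact Or.inl hzx
        · exact Or.inr ⟨h, hzx⟩
    · rw [List.pairwise_cons]
      exact ⟨fun z hz => hmin z ((hm z).1 hz).1, hp⟩

lemma isLinExt_nil_iff {Q : Set P} : IsLinExt Q [] ↔ Q = ∅ := by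
  constructor
  · rintro ⟨-, h, -⟩
    ext x
    simpa using (h x).symm
  · rintro rfl
    exact ⟨List.nodup_nil, by simp, List.Pairwise.nil⟩

lemma isUpperSet_diff_min {Q : Set P} (hQ : IsUpperSet Q) {x : P}
    (hmin : ∀ z ∈ Q, ¬ z < x) : IsUpperSet (Q \ {x}) := by
  rintro a b hab ⟨haQ, hax⟩
  refine ⟨hQ hab haQ, ?_⟩
  intro hb
  rw [mem_singleton_iff] at hb
  subst hb
  rcases hab.lt_or_eq with h | h
  · exact hmin a haQ h
  · exact hax h

lemma exists_minimal_mem [Finite P] {Q : Set P} (hQ : Q.Nonempty) :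
    ∃ x ∈ Q, ∀ z ∈ Q, ¬ z < x := by
  obtain ⟨x, hx⟩ := (Set.toFinite Q).exists_minimal hQ
  exact ⟨x, hx.1, fun z hz h => hx.not_lt hz h⟩

lemma exists_linExt [Finite P] (Q : Set P) : ∃ L, IsLinExt Q L := by
  induction hn : Q.ncard using Nat.strong_induction_on generalizing Q with
  | _ n ih =>
    rcases Q.eq_empty_or_nonempty with h | h
    · exact ⟨[], isLinExt_nil_iff.2 h⟩
    · obtain ⟨x, hx, hmin⟩ := exists_minimal_mem h
      have hlt : (Q \ {x}).ncard < n := by
        rw [← hn]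
        exact Set.ncard_sdiff_singleton_lt_of_mem hx (Set.toFinite Q)
      obtain ⟨l, hl⟩ := ih _ hlt (Q \ {x}) rfl
      exact ⟨x :: l, isLinExt_cons.2 ⟨hx, hmin, hl⟩⟩

lemma IsLinExt.length_eq {Q : Set P} {L : List P} (h : IsLinExt Q L) : L.length = Q.ncard := by
  classical
  obtain ⟨hn, hm, -⟩ := h
  have : Q = ↑L.toFinset := by
    ext x; simp [hm x]
  rw [this, Set.ncard_coe_finset, List.toFinset_card_of_nodup hn]

/-- number of bumps is at most the number of closing elements -/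
lemma length_le {L : List P} : ∀ {Q : Set P}, IsUpperSet Q → IsLinExt Q L → L ≠ [] →
    L.length ≤ jmp L + 1 + bcount Q L := by
  classical
  induction L with
  | nil => intro Q _ _ h; exact absurd rfl h
  | cons x l ih =>
    intro Q hQ hL _
    obtain ⟨hx, hmin, hl⟩ := isLinExt_cons.1 hL
    have hQ' := isUpperSet_diff_min hQ hmin
    cases l with
    | nil =>
      simp only [List.length_cons, List.length_nil]
      omega
    | cons y t =>
      have h1 := ih hQ' hl (by simp)
      rw [jmp_cons_cons]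
      simp only [List.length_cons, bcount] at h1 ⊢
      by_cases hxy : x ⋖ y
      · have hc : Closing Q x := by
          refine ⟨y, hxy, ?_⟩
          intro w hw hwQ
          by_contra hne
          exact (isLinExt_cons.1 hl).2.1 w ⟨hwQ, hne⟩ hw.lt
        simp only [hxy, hc, if_true]
        omega
      · simp only [hxy, if_false]
        omega

/-! ### greedy chains -/

lemma diff_upper {Q C : Set P} (hQ : IsUpperSet Q)
    (hC : ∀ x ∈ C, ∀ z ∈ Q, z ≤ x → z ∈ C) : IsUpperSet (Q \ C) := by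
  rintro a b hab ⟨haQ, haC⟩
  exact ⟨hQ hab haQ, fun hb => haC (hC b hb a haQ hab)⟩

lemma exists_greedy_chain [Finite P] {Q : Set P} {x : P} (hx : x ∈ Q) (hmin : ∀ z ∈ Q, ¬ z < x) :
    ∃ C, IsGreedyChain Q C ∧ x ∈ C := by
  have hfin : {C : Set P | C ⊆ Q ∧ IsChain (· ≤ ·) C ∧ ∀ x ∈ C, ∀ z ∈ Q, z ≤ x → z ∈ C}.Finite :=
    Set.toFinite _
  have hmem : ({x} : Set P) ∈
      {C : Set P | C ⊆ Q ∧ IsChain (· ≤ ·) C ∧ ∀ x ∈ C, ∀ z ∈ Q, z ≤ x → z ∈ C} := by
    refine ⟨by simpa using hx, by simp [IsChain], ?_⟩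
    intro a ha z hz hza
    rw [mem_singleton_iff] at ha ⊢
    subst ha
    rcases hza.lt_or_eq with h | h
    · exact absurd h (hmin z hz)
    · exact h
  obtain ⟨C, hC1, hC2⟩ := hfin.exists_le_maximal hmem
  exact ⟨C, hC2, hC1 rfl⟩

lemma greedy_nonempty {Q C : Set P} [Finite P] (hne : Q.Nonempty) (hC : IsGreedyChain Q C) :
    C.Nonempty := by
  obtain ⟨x, hx, hmin⟩ := exists_minimal_mem hne
  obtain ⟨C', hC', hxC'⟩ := exists_greedy_chain hx hmin
  by_contra h
  rw [Set.not_nonempty_iff_eq_empty] at h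
  subst h
  exact (hC.2 hC'.1 (Set.empty_subset _)) hxC'

/-- the least element of a nonempty finite chain -/
lemma exists_least [Finite P] {C : Set P} (hC : IsChain (· ≤ ·) C) (hne : C.Nonempty) :
    ∃ c ∈ C, ∀ c' ∈ C, c ≤ c' := by
  obtain ⟨c, hc, hmin⟩ := exists_minimal_mem hne
  refine ⟨c, hc, fun c' hc' => ?_⟩
  rcases hC.total hc hc' with h | h
  · exact h
  · rcases h.lt_or_eq with h' | h'
    · exact absurd h' (hmin c' hc')
    · exact h'.ge

/-- if `{c}` is a greedy chain then `c` is not closing -/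
lemma not_closing_of_single [Finite P] {Q : Set P} (hQ : IsUpperSet Q) {c : P}
    (hC : IsGreedyChain Q {c}) : ¬ Closing Q c := by
  rintro ⟨y, hcy, hy⟩
  have hcQ : c ∈ Q := hC.1.1 rfl
  have hyQ : y ∈ Q := hQ hcy.le hcQ
  have key : ({c, y} : Set P) ⊆ {c} := by
    refine hC.2 ⟨?_, ?_, ?_⟩ (by intro z hz; simp at hz; simp [hz])
    · intro z hz
      rcases hz with h | h
      · exact h ▸ hcQ
      · exact (mem_singleton_iff.1 h) ▸ hyQ
    · exact (IsChain.pair hcy.le)
    · intro x hx z hz hzx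
      rcases hx with h | h
      · subst h
        exact Or.inl (hC.1.2.2 x rfl z hz hzx)
      · rw [mem_singleton_iff] at h
        subst h
        rcases hzx.lt_or_eq with h' | h'
        · obtain ⟨w, hzw, hwx⟩ := exists_le_covBy_of_lt h'
          have hwQ : w ∈ Q := hQ hzw hz
          have hwc := hy w hwx hwQ
          subst hwc
          exact Or.inl (hC.1.2.2 w rfl z hz hzw)
        · exact Or.inr h'
  have := key (Or.inr rfl : y ∈ ({c, y} : Set P))
  rw [mem_singleton_iff] at this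
  exact hcy.ne this.symm

/-- removing the least element of a greedy chain with at least two elements -/
lemma greedy_tail [Finite P] {Q C : Set P} (hQ : IsUpperSet Q) (hC : IsGreedyChain Q C)
    {c : P} (hc : c ∈ C) (hleast : ∀ c' ∈ C, c ≤ c') (hne : (C \ {c}).Nonempty) :
    (∀ z ∈ Q, ¬ z < c) ∧ IsGreedyChain (Q \ {c}) (C \ {c}) ∧ Closing Q c ∧
      ∃ d ∈ C \ {c}, (∀ d' ∈ C \ {c}, d ≤ d') ∧ c ⋖ d := by
  have hmin : ∀ z ∈ Q, ¬ z < c := by
    intro z hz h
    have hzC := hC.1.2.2 c hc z hz h.le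
    exact absurd (hleast z hzC) (not_le_of_gt h)
  obtain ⟨d, hd, hdl⟩ := exists_least (hC.1.2.1.mono (sdiff_subset (t := {c}))) hne
  have hcd : c < d := lt_of_le_of_ne (hleast d hd.1) (fun h => hd.2 h.symm)
  have hcov : c ⋖ d := by
    refine ⟨hcd, fun z hz1 hz2 => ?_⟩
    have hzQ : z ∈ Q := hQ hz1.le (hC.1.1 hc)
    have hzC : z ∈ C := hC.1.2.2 d hd.1 z hzQ hz2.le
    exact absurd (hdl z ⟨hzC, fun h => hz1.ne (mem_singleton_iff.1 h).symm⟩) (not_le_of_gt hz2)
  refine ⟨hmin, ⟨⟨?_, ?_, ?_⟩, ?_⟩, ?_, d, hd, hdl, hcov⟩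
  · exact fun z hz => ⟨hC.1.1 hz.1, hz.2⟩
  · exact hC.1.2.1.mono sdiff_subset
  · intro x hx z hz hzx
    exact ⟨hC.1.2.2 x hx.1 z hz.1 hzx, hz.2⟩
  · intro C' hC' hsub z hz
    obtain ⟨h1, h2, h3⟩ := hC'
    have hlt : ∀ w ∈ C', c < w := by
      intro w hw
      have hdC' : d ∈ C' := hsub hd
      rcases h2.total hdC' hw with h | h
      · exact hcd.trans_le h
      · have hwC : w ∈ C := hC.1.2.2 d hd.1 w (h1 hw).1 h
        exact lt_of_le_of_ne (hleast w hwC) (fun h' => (h1 hw).2 h'.symm)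
    have key : insert c C' ⊆ C := by
      refine hC.2 ⟨?_, ?_, ?_⟩ ?_
      · intro w hw
        rcases hw with h | h
        · exact h ▸ hC.1.1 hc
        · exact (h1 h).1
      · exact h2.insert (fun b hb _ => Or.inl (hlt b hb).le)
      · intro x hx w hw hwx
        by_cases hwc : w = c
        · exact Or.inl hwc
        · rcases hx with h | h
          · subst h
            exact absurd (lt_of_le_of_ne hwx hwc) (hmin w hw)
          · exact Or.inr (h3 x h w ⟨hw, hwc⟩ hwx)
      · intro w hw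
        by_cases hwc : w = c
        · exact Or.inl hwc
        · exact Or.inr (hsub ⟨hw, hwc⟩)
    exact ⟨key (Or.inr hz), (h1 hz).2⟩
  · refine ⟨d, hcov, fun w hw hwQ => ?_⟩
    have hwC : w ∈ C := hC.1.2.2 d hd.1 w hwQ hw.le
    by_contra hne'
    exact absurd (hdl w ⟨hwC, hne'⟩) (not_le_of_gt hw.lt)

/-- the key lemma on greedy chains -/
lemma chain_lemma [Finite P] (m : ℕ) : ∀ (Q C : Set P), IsUpperSet Q → IsGreedyChain Q C →
    C.Nonempty → C.ncard = m → ∀ L' , IsLinExt (Q \ C) L' →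
    ∃ c ∈ C, (∀ c' ∈ C, c ≤ c') ∧ ∃ t, IsLinExt Q (c :: t) ∧
      bcount Q (c :: t) + 1 = C.ncard + bcount (Q \ C) L' ∧
      (L' = [] → jmp (c :: t) = 0) ∧ jmp (c :: t) ≤ 1 + jmp L' := by
  classical
  induction m using Nat.strong_induction_on with
  | _ m ih =>
    intro Q C hQ hC hne hm L' hL'
    obtain ⟨c, hc, hleast⟩ := exists_least hC.1.2.1 hne
    have hmin : ∀ z ∈ Q, ¬ z < c := by
      intro z hz h
      have hzC := hC.1.2.2 c hc z hz h.le
      exact absurd (hleast z hzC) (not_le_of_gt h)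
    rcases (C \ {c}).eq_empty_or_nonempty with he | he
    · have hCc : C = {c} := by
        apply Set.Subset.antisymm
        · rwa [← Set.sdiff_eq_empty]
        · simpa using hc
      subst hCc
      refine ⟨c, rfl, by simp, L', isLinExt_cons.2 ⟨hC.1.1 rfl, hmin, hL'⟩, ?_, ?_, ?_⟩
      · have := not_closing_of_single hQ hC
        simp [bcount, this]
        ring
      · rintro rfl; exact jmp_single c
      · exact jmp_cons_le _ _
    · obtain ⟨-, hC1, hclo, d, hd, hdl, hcd⟩ := greedy_tail hQ hC hc hleast he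
      have hlt : (C \ {c}).ncard < m := by
        rw [← hm]
        exact Set.ncard_sdiff_singleton_lt_of_mem hc (Set.toFinite C)
      have heq : (Q \ {c}) \ (C \ {c}) = Q \ C := by
        ext z
        simp only [mem_sdiff, mem_singleton_iff]
        constructor
        · rintro ⟨⟨h1, h2⟩, h3⟩
          exact ⟨h1, fun h => h3 ⟨h, h2⟩⟩
        · rintro ⟨h1, h2⟩
          refine ⟨⟨h1, fun h => h2 (h ▸ hc)⟩, fun h => h2 h.1⟩
      obtain ⟨e, he1, he2, t, ht, hb, hj0, hj⟩ := ih _ hlt (Q \ {c}) (C \ {c})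
        (isUpperSet_diff_min hQ hmin) hC1 he rfl L' (by rw [heq]; exact hL')
      rw [heq] at hb
      have hed : e = d := le_antisymm (he2 d hd) (hdl e he1)
      subst hed
      refine ⟨c, hc, hleast, e :: t, isLinExt_cons.2 ⟨hC.1.1 hc, hmin, ht⟩, ?_, ?_, ?_⟩
      · have hcard : (C \ {c}).ncard + 1 = C.ncard :=
          Set.ncard_sdiff_singleton_add_one hc (Set.toFinite C)
        have : bcount Q (c :: e :: t) = 1 + bcount (Q \ {c}) (e :: t) := by
          conv_lhs => rw [bcount]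
          rw [if_pos hclo]
        omega
      · intro h
        rw [jmp_cons_cons, if_pos hcd, hj0 h]
      · rw [jmp_cons_cons, if_pos hcd]
        omega

lemma greedy_self_of_chain {Q : Set P} (hQ : IsChain (· ≤ ·) Q) : IsGreedyChain Q Q :=
  ⟨⟨Subset.rfl, hQ, fun _ _ z hz _ => hz⟩, fun _ h _ => h.1⟩

/-- every run yields a linear extension -/
lemma run_linExt [Finite P] {Q : Set P} {n : ℕ} (hr : Run Q n) : IsUpperSet Q → Q.Nonempty →
    ∃ L, IsLinExt Q L ∧ bcount Q L + n + 1 = Q.ncard ∧ jmp L ≤ n := by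
  induction hr with
  | @stop Q hch =>
    intro hQ hne
    have hgr := greedy_self_of_chain hch
    obtain ⟨c, -, -, t, h1, h2, h3, -⟩ := chain_lemma Q.ncard Q Q hQ hgr hne rfl []
      (isLinExt_nil_iff.2 (by simp))
    refine ⟨c :: t, h1, ?_, (h3 rfl).le⟩
    simp only [bcount] at h2 ⊢
    omega
  | @step Q C n hnc hC _ ih =>
    intro hQ hne
    have hCne := greedy_nonempty hne hC
    have hdne : (Q \ C).Nonempty := by
      rw [Set.nonempty_iff_ne_empty]
      intro h
      rw [Set.sdiff_eq_empty] at h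
      exact hnc (hC.1.2.1.mono h)
    obtain ⟨L', h1, h2, h3⟩ := ih (diff_upper hQ hC.1.2.2) hdne
    obtain ⟨c, -, -, t, g1, g2, -, g3⟩ := chain_lemma C.ncard Q C hQ hC hCne rfl L' h1
    refine ⟨c :: t, g1, ?_, ?_⟩
    · have : (Q \ C).ncard + C.ncard = Q.ncard :=
        Set.ncard_sdiff_add_ncard_of_subset hC.1.1 (Set.toFinite Q)
      omega
    · omega

lemma exists_run [Finite P] (Q : Set P) : ∃ n, Run Q n := by
  induction hn : Q.ncard using Nat.strong_induction_on generalizing Q with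
  | _ n ih =>
    by_cases hch : IsChain (· ≤ ·) Q
    · exact ⟨0, Run.stop hch⟩
    · have hne : Q.Nonempty := by
        rw [Set.nonempty_iff_ne_empty]
        rintro rfl
        exact hch (by simp [IsChain])
      obtain ⟨x, hx, hmin⟩ := exists_minimal_mem hne
      obtain ⟨C, hC, hxC⟩ := exists_greedy_chain hx hmin
      have hlt : (Q \ C).ncard < n := by
        rw [← hn]
        apply Set.ncard_lt_ncard _ (Set.toFinite Q)
        refine ⟨sdiff_subset, fun h => ?_⟩
        exact (h hx).2 hxC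
      obtain ⟨k, hk⟩ := ih _ hlt (Q \ C) rfl
      exact ⟨k + 1, Run.step hch hC hk⟩

lemma jumpNumber_le {Q : Set P} (hQ : IsUpperSet Q) {L : List P} (hL : IsLinExt Q L) :
    jumpNumber Q ≤ jmp L := by
  apply Nat.sInf_le
  exact ⟨L, hL, jumps_eq hQ L (fun x hx => (hL.2.1 x).1 hx)⟩

lemma jumpNumber_mem [Finite P] {Q : Set P} (hQ : IsUpperSet Q) :
    ∃ L, IsLinExt Q L ∧ jmp L = jumpNumber Q := by
  have hne : {k | ∃ L, IsLinExt Q L ∧ jumps Q L = k}.Nonempty := by
    obtain ⟨L, hL⟩ := exists_linExt Q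
    exact ⟨_, L, hL, rfl⟩
  obtain ⟨L, hL, h⟩ := Nat.sInf_mem hne
  refine ⟨L, hL, ?_⟩
  rw [← jumps_eq hQ L (fun x hx => (hL.2.1 x).1 hx)]
  exact h

lemma jumpNumber_le_of_run [Finite P] {Q : Set P} {n : ℕ} (hQ : IsUpperSet Q) (h : Run Q n) :
    jumpNumber Q ≤ n := by
  rcases Q.eq_empty_or_nonempty with he | hne
  · subst he
    have := jumpNumber_le hQ (isLinExt_nil_iff.2 rfl)
    rw [jmp_nil] at this
    omega
  · obtain ⟨L, h1, -, h3⟩ := run_linExt h hQ hne
    exact (jumpNumber_le hQ h1).trans h3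

/-- `bcount` is constant on linear extensions of `Q` -/
def BConst (Q : Set P) : Prop := ∀ L L', IsLinExt Q L → IsLinExt Q L' → bcount Q L = bcount Q L'

lemma isGreedy_of_bconst [Finite P] {Q : Set P} (hQ : IsUpperSet Q) (hb : BConst Q) :
    IsGreedy Q := by
  intro n hn
  apply le_antisymm _ (jumpNumber_le_of_run hQ hn)
  rcases Q.eq_empty_or_nonempty with he | hne
  · subst he
    cases hn with
    | stop _ => exact Nat.zero_le _
    | step h _ _ => exact absurd (by simp [IsChain]) h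
  · obtain ⟨L, h1, h2, -⟩ := run_linExt hn hQ hne
    obtain ⟨L0, g1, g2⟩ := jumpNumber_mem hQ
    have hL0 : L0 ≠ [] := by
      rintro rfl
      exact hne.ne_empty (isLinExt_nil_iff.1 g1)
    have := length_le hQ g1 hL0
    rw [g1.length_eq, g2, hb L0 L g1 h1] at this
    omega

end Pool.Agent.Work.MP_02c6ed_co
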