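import Pool.Agent.Work.MP_02c6ed_co.Hard

/-!
# Certificates for posets which are not greedy

A run of the greedy procedure is described by the function giving for each element the number of
the deleted chain that contains it.
-/

set_option autoImplicit false

namespace Pool.Agent.Work.MP_02c6ed_co

open Set

/-- `c` numbers the chains of a run on `Q` (for a relation `r` in place of the order). -/
structure Lv {P : Type*} (r : P → P → Prop) (Q : Set P) (c : P → ℕ) : Prop where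
  init : ∀ x ∈ Q, ∀ t < c x, ∃ y ∈ Q, c y = t
  chain : ∀ x ∈ Q, ∀ y ∈ Q, c x = c y → r x y ∨ r y x
  mono : ∀ x ∈ Q, ∀ z ∈ Q, r z x → c z ≤ c x
  maxi : ∀ x ∈ Q, ∀ z ∈ Q, c x < c z →
    ∃ u ∈ Q, (c u = c x ∧ ¬ r u z) ∨ (c x < c u ∧ r u z ∧ u ≠ z)

variable {P : Type*} [PartialOrder P]

lemma not_ne_of_min {z u : P} {S : Set P} (hz : ∀ w ∈ S, ¬ w < z) (hu : u ∈ S) :
    ¬ (u ≤ z ∧ u ≠ z) := fun h => hz u hu (lt_of_le_of_ne h.1 h.2)

/-- The first level is a greedy chain. -/
lemma Lv.greedy [Finite P] {Q : Set P} {c : P → ℕ} (h : Lv (· ≤ ·) Q c) (hne : Q.Nonempty) :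
    IsGreedyChain Q {x ∈ Q | c x = 0} := by
  obtain ⟨x1, hx1⟩ := hne
  obtain ⟨x0, hx0, h0⟩ : ∃ x0 ∈ Q, c x0 = 0 := by
    rcases Nat.eq_zero_or_pos (c x1) with h1 | h1
    · exact ⟨x1, hx1, h1⟩
    · exact h.init x1 hx1 0 h1
  refine ⟨⟨fun x hx => hx.1, ?_, ?_⟩, ?_⟩
  · intro x hx y hy _
    exact h.chain x hx.1 y hy.1 (hx.2.trans hy.2.symm)
  · intro x hx z hz hzx
    refine ⟨hz, ?_⟩
    have := h.mono x hx.1 z hz hzx
    have := hx.2
    omega
  · intro D hD hsub d hd
    by_contra hcon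
    have hdQ : d ∈ Q := hD.1 hd
    have hpos : 0 < c d := Nat.pos_of_ne_zero fun h' => hcon ⟨hdQ, h'⟩
    obtain ⟨z, hz, hzmin⟩ := exists_minimal_mem (Q := {z ∈ D | 0 < c z}) ⟨d, hd, hpos⟩
    obtain ⟨u, hu, h1 | h1⟩ := h.maxi x0 hx0 z (hD.1 hz.1) (by have := hz.2; omega)
    · have huD : u ∈ D := hsub ⟨hu, h1.1.trans h0⟩
      rcases hD.2.1.total huD hz.1 with h2 | h2
      · exact h1.2 h2
      · have := h.mono u hu z (hD.1 hz.1) h2
        have := hz.2
        omega
    · have huD : u ∈ D := hD.2.2 z hz.1 u hu h1.2.1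
      exact hzmin u ⟨huD, by have := h1.1; omega⟩ (lt_of_le_of_ne h1.2.1 h1.2.2)

lemma Lv.rest {Q : Set P} {c : P → ℕ} (h : Lv (· ≤ ·) Q c) :
    Lv (· ≤ ·) (Q \ {x ∈ Q | c x = 0}) (fun x => c x - 1) := by
  have key : ∀ x, x ∈ Q \ {x ∈ Q | c x = 0} ↔ x ∈ Q ∧ 0 < c x := by
    intro x
    simp only [mem_sdiff, mem_ofPred_eq, not_and]
    constructor
    · rintro ⟨h1, h2⟩
      exact ⟨h1, Nat.pos_of_ne_zero (h2 h1)⟩
    · rintro ⟨h1, h2⟩
      exact ⟨h1, fun _ => by omega⟩
  constructor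
  · intro x hx t ht
    rw [key] at hx
    obtain ⟨y, hy, h1⟩ := h.init x hx.1 (t + 1) (by omega)
    exact ⟨y, (key y).2 ⟨hy, by omega⟩, by omega⟩
  · intro x hx y hy hxy
    rw [key] at hx hy
    exact h.chain x hx.1 y hy.1 (by omega)
  · intro x hx z hz hzx
    rw [key] at hx hz
    have := h.mono x hx.1 z hz.1 hzx
    omega
  · intro x hx z hz hxz
    rw [key] at hx hz
    obtain ⟨u, hu, h1 | h1⟩ := h.maxi x hx.1 z hz.1 (by omega)
    · exact ⟨u, (key u).2 ⟨hu, by omega⟩, Or.inl ⟨by omega, h1.2⟩⟩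
    · exact ⟨u, (key u).2 ⟨hu, by omega⟩, Or.inr ⟨by omega, h1.2⟩⟩

lemma run_of_lv [Finite P] (n : ℕ) : ∀ (Q : Set P) (c : P → ℕ), Lv (· ≤ ·) Q c →
    (∀ x ∈ Q, c x ≤ n) → (∃ x ∈ Q, c x = n) → Run Q n := by
  induction n with
  | zero =>
    intro Q c h hle _
    refine Run.stop fun x hx y hy _ => h.chain x hx y hy ?_
    have := hle x hx
    have := hle y hy
    omega
  | succ n ih =>
    rintro Q c h hle ⟨x, hx, hxn⟩
    have hgr := h.greedy ⟨x, hx⟩
    have hxd : x ∈ Q \ {x ∈ Q | c x = 0} := ⟨hx, fun h' => by have := h'.2; omega⟩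
    refine Run.step (fun hch => ?_) hgr (ih _ _ h.rest (fun y hy => ?_) ⟨x, hxd, by
      omega⟩)
    · have := eq_of_chain hch hgr
      rw [← this] at hx
      have := hx.2
      omega
    · have := hle y hy.1
      omega

lemma lv_of_run [Finite P] {Q : Set P} {n : ℕ} (hr : Run Q n) : Q.Nonempty →
    ∃ c : P → ℕ, Lv (· ≤ ·) Q c ∧ (∀ x ∈ Q, c x ≤ n) ∧ ∃ x ∈ Q, c x = n := by
  induction hr with
  | @stop Q hch =>
    rintro ⟨x, hx⟩
    refine ⟨fun _ => 0, ⟨?_, ?_, ?_, ?_⟩, fun _ _ => le_refl _, x, hx, rfl⟩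
    · intro x _ t ht
      exact absurd ht (Nat.not_lt_zero _)
    · intro x hx y hy _
      exact hch.total hx hy
    · intro x _ z _ _
      exact le_refl _
    · intro x _ z _ h
      exact absurd h (lt_irrefl _)
  | @step Q C n hnc hC _ ih =>
    intro hne
    have hdne : (Q \ C).Nonempty := by
      rw [Set.nonempty_iff_ne_empty]
      intro h
      rw [Set.sdiff_eq_empty] at h
      exact hnc (hC.1.2.1.mono h)
    obtain ⟨c, h, hle, x0, hx0, hx0n⟩ := ih hdne
    classical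
    obtain ⟨w0, hw0⟩ := greedy_nonempty hne hC
    have hval1 : ∀ x ∈ C, (if x ∈ C then 0 else c x + 1) = 0 := fun x hx => if_pos hx
    have hval2 : ∀ x, x ∉ C → (if x ∈ C then 0 else c x + 1) = c x + 1 := fun x hx => if_neg hx
    refine ⟨fun x => if x ∈ C then 0 else c x + 1, ⟨?_, ?_, ?_, ?_⟩, ?_, ?_⟩
    · intro x hx t ht
      by_cases hxC : x ∈ C
      · rw [hval1 x hxC] at ht
        omega
      · rw [hval2 x hxC] at ht
        rcases t with _ | t
        · exact ⟨w0, hC.1.1 hw0, hval1 _ hw0⟩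
        · obtain ⟨y, hy, h1⟩ := h.init x ⟨hx, hxC⟩ t (by omega)
          exact ⟨y, hy.1, by rw [hval2 y hy.2, h1]⟩
    · intro x hx y hy hxy
      by_cases hxC : x ∈ C <;> by_cases hyC : y ∈ C
      · exact hC.1.2.1.total hxC hyC
      · rw [hval1 x hxC, hval2 y hyC] at hxy; omega
      · rw [hval2 x hxC, hval1 y hyC] at hxy; omega
      · rw [hval2 x hxC, hval2 y hyC] at hxy
        exact h.chain x ⟨hx, hxC⟩ y ⟨hy, hyC⟩ (by omega)
    · intro x hx z hz hzx
      by_cases hzC : z ∈ C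
      · rw [hval1 z hzC]; exact Nat.zero_le _
      · have hxC : x ∉ C := fun h' => hzC (hC.1.2.2 x h' z hz hzx)
        rw [hval2 z hzC, hval2 x hxC]
        have := h.mono x ⟨hx, hxC⟩ z ⟨hz, hzC⟩ hzx
        omega
    · intro x hx z hz hxz
      have hzC : z ∉ C := fun h' => by rw [hval1 z h'] at hxz; omega
      rw [hval2 z hzC] at hxz
      by_cases hxC : x ∈ C
      · rw [hval1 x hxC] at hxz ⊢
        by_contra hcon
        push Not at hcon
        refine no_ext hC hz hzC (fun u hu => ?_) (fun u hu huz => ?_)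
        · exact (hcon u (hC.1.1 hu)).1 (hval1 u hu)
        · by_contra huC
          exact huz.ne ((hcon u hu).2 (by rw [hval2 u huC]; omega) huz.le)
      · rw [hval2 x hxC] at hxz ⊢
        obtain ⟨u, hu, h1 | h1⟩ := h.maxi x ⟨hx, hxC⟩ z ⟨hz, hzC⟩ (by omega)
        · exact ⟨u, hu.1, Or.inl ⟨by rw [hval2 u hu.2]; omega, h1.2⟩⟩
        · exact ⟨u, hu.1, Or.inr ⟨by rw [hval2 u hu.2]; omega, h1.2⟩⟩
    · intro x hx
      beta_reduce
      by_cases hxC : x ∈ C
      · rw [hval1 x hxC]; omega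
      · rw [hval2 x hxC]
        have := hle x ⟨hx, hxC⟩
        omega
    · exact ⟨x0, hx0.1, by beta_reduce; rw [hval2 x0 hx0.2, hx0n]⟩

/-- Some run attains the jump number. -/
lemma exists_run_opt [Finite P] (m : ℕ) : ∀ Q : Set P, Q.ncard = m → IsUpperSet Q →
    Q.Nonempty → Run Q (jumpNumber Q) := by
  induction m using Nat.strong_induction_on with
  | _ m ih =>
    intro Q hm hQ hne
    by_cases hch : IsChain (· ≤ ·) Q
    · have h0 := jumpNumber_le_of_run hQ (Run.stop hch)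
      have h1 : jumpNumber Q = 0 := by omega
      rw [h1]
      exact Run.stop hch
    · obtain ⟨C, hC, hcn⟩ := exists_opt hQ hne
      have hdne : (Q \ C).Nonempty := by
        rw [Set.nonempty_iff_ne_empty]
        intro h
        rw [Set.sdiff_eq_empty] at h
        exact hch (hC.1.2.1.mono h)
      rw [cn_of_nonempty hdne, cn_of_nonempty hne] at hcn
      have hlt : (Q \ C).ncard < m := by
        rw [← hm]
        apply Set.ncard_lt_ncard _ (Set.toFinite _)
        refine ⟨Set.sdiff_subset, fun h => ?_⟩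
        obtain ⟨w, hw⟩ := greedy_nonempty hne hC
        exact (h (hC.1.1 hw)).2 hw
      have h1 := ih _ hlt (Q \ C) rfl (diff_upper hQ hC.1.2.2) hdne
      have h2 := Run.step hch hC h1
      have h3 := jumpNumber_le_of_run hQ h2
      have h4 : jumpNumber Q = jumpNumber (Q \ C) + 1 := by omega
      rw [h4]
      exact h2

/-- **Certificates.** -/
theorem not_greedy_iff [Finite P] : ¬ IsGreedy (univ : Set P) ↔
    ∃ c c' : P → ℕ, Lv (· ≤ ·) univ c ∧ Lv (· ≤ ·) univ c' ∧ ∃ x, ∀ y, c' y < c x := by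
  have hup : IsUpperSet (univ : Set P) := fun _ _ _ _ => mem_univ _
  constructor
  · intro h
    have hne : (univ : Set P).Nonempty := by
      rw [Set.nonempty_iff_ne_empty]
      intro h'
      rw [h'] at h
      exact h isGreedy_empty
    unfold IsGreedy at h
    push Not at h
    obtain ⟨n, hn, hne'⟩ := h
    have h1 := jumpNumber_le_of_run hup hn
    obtain ⟨c, hc, -, x, -, hx⟩ := lv_of_run hn hne
    obtain ⟨c', hc', hle, -⟩ := lv_of_run (exists_run_opt _ _ rfl hup hne) hne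
    refine ⟨c, c', hc, hc', x, fun y => ?_⟩
    have := hle y (mem_univ _)
    omega
  · rintro ⟨c, c', hc, hc', x, hx⟩ hG
    haveI : Nonempty P := ⟨x⟩
    obtain ⟨x1, h1⟩ := Finite.exists_max c
    obtain ⟨x2, h2⟩ := Finite.exists_max c'
    have r1 := run_of_lv (c x1) univ c hc (fun y _ => h1 y) ⟨x1, mem_univ _, rfl⟩
    have r2 := run_of_lv (c' x2) univ c' hc' (fun y _ => h2 y) ⟨x2, mem_univ _, rfl⟩
    have e1 := hG _ r1
    have e2 := hG _ r2
    have := hx x2
    have := h1 x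
    omega

/-- The levels are bounded by the number of elements. -/
lemma Lv.lt_card {P : Type*} [Finite P] {r : P → P → Prop} {c : P → ℕ} (h : Lv r univ c)
    (x : P) : c x < Nat.card P := by
  have hinj : ∃ g : Fin (c x + 1) → P, Function.Injective g := by
    have : ∀ t : Fin (c x + 1), ∃ y : P, c y = t := by
      intro t
      rcases Nat.lt_or_ge t (c x) with h1 | h1
      · obtain ⟨y, -, hy⟩ := h.init x (mem_univ _) t h1
        exact ⟨y, hy⟩
      · exact ⟨x, by have := t.2; omega⟩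
    choose g hg using this
    refine ⟨g, fun s t hst => Fin.ext ?_⟩
    rw [← hg s, ← hg t, hst]
  obtain ⟨g, hg⟩ := hinj
  have := Nat.card_le_card_of_injective g hg
  rw [Nat.card_eq_fintype_card, Fintype.card_fin] at this
  omega

/-- Transport of levels. -/
lemma Lv.comp {P P' : Type*} {r : P → P → Prop} {r' : P' → P' → Prop} {c : P' → ℕ}
    (h : Lv r' univ c) (e : P ≃ P') (he : ∀ x y, r x y ↔ r' (e x) (e y)) :
    Lv r univ (c ∘ e) := by
  constructor
  · intro x _ t ht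
    obtain ⟨y, -, hy⟩ := h.init (e x) (mem_univ _) t ht
    exact ⟨e.symm y, mem_univ _, by simp [hy]⟩
  · intro x _ y _ hxy
    rw [he, he]
    exact h.chain _ (mem_univ _) _ (mem_univ _) hxy
  · intro x _ z _ hzx
    exact h.mono _ (mem_univ _) _ (mem_univ _) ((he _ _).1 hzx)
  · intro x _ z _ hxz
    obtain ⟨u, -, h1 | h1⟩ := h.maxi (e x) (mem_univ _) (e z) (mem_univ _) hxz
    · refine ⟨e.symm u, mem_univ _, Or.inl ⟨by simpa using h1.1, ?_⟩⟩
      rw [he]
      simpa using h1.2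
    · refine ⟨e.symm u, mem_univ _, Or.inr ⟨by simpa using h1.1, ?_, ?_⟩⟩
      · rw [he]
        simpa using h1.2.1
      · intro h2
        apply h1.2.2
        rw [← h2]
        simp

/-- Greediness is invariant under isomorphisms of posets. -/
theorem isGreedy_congr {P' : Type*} [PartialOrder P'] [Finite P] [Finite P'] (e : P ≃o P') :
    IsGreedy (univ : Set P) ↔ IsGreedy (univ : Set P') := by
  rw [← not_iff_not, not_greedy_iff, not_greedy_iff]
  constructor
  · rintro ⟨c, c', h1, h2, x, hx⟩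
    refine ⟨c ∘ e.symm, c' ∘ e.symm, h1.comp e.symm.toEquiv fun a b => ?_,
      h2.comp e.symm.toEquiv fun a b => ?_, e x, fun y => ?_⟩
    · exact (e.symm.le_iff_le).symm
    · exact (e.symm.le_iff_le).symm
    · simpa using hx (e.symm y)
  · rintro ⟨c, c', h1, h2, x, hx⟩
    refine ⟨c ∘ e, c' ∘ e, h1.comp e.toEquiv fun a b => ?_,
      h2.comp e.toEquiv fun a b => ?_, e.symm x, fun y => ?_⟩
    · exact (e.le_iff_le).symm
    · exact (e.le_iff_le).symm
    · simpa using hx (e y)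

end Pool.Agent.Work.MP_02c6ed_co
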