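import Pool.Agent.Work.MP_02c6ed_co.Basic

set_option autoImplicit false

namespace Pool.Agent.Work.MP_02c6ed_co

open Set

variable {P : Type*} [PartialOrder P]

/-- local exchange -/
def Exch (P : Type*) [PartialOrder P] : Prop :=
  ∀ Q : Set P, IsUpperSet Q → ∀ x ∈ Q, ∀ x' ∈ Q, x ≠ x' → (∀ z ∈ Q, ¬ z < x) →
    (∀ z ∈ Q, ¬ z < x') → Closing Q x' →
    (∃ y, x ⋖ y ∧ x' ⋖ y ∧ ∀ w, w ⋖ y → w ∈ Q → w = x ∨ w = x') → Closing Q x

lemma closing_diff_iff {Q : Set P} {x x' : P} (hne : x ≠ x') :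
    Closing (Q \ {x}) x' ↔ Closing Q x' ∨
      (∃ y, x ⋖ y ∧ x' ⋖ y ∧ ∀ w, w ⋖ y → w ∈ Q → w = x ∨ w = x') := by
  constructor
  · rintro ⟨y, h1, h2⟩
    by_cases hx : x ⋖ y
    · refine Or.inr ⟨y, hx, h1, fun w hw hwQ => ?_⟩
      by_cases hwx : w = x
      · exact Or.inl hwx
      · exact Or.inr (h2 w hw ⟨hwQ, hwx⟩)
    · refine Or.inl ⟨y, h1, fun w hw hwQ => ?_⟩
      exact h2 w hw ⟨hwQ, fun h => hx (mem_singleton_iff.1 h ▸ hw)⟩
  · rintro (⟨y, h1, h2⟩ | ⟨y, h1, h2, h3⟩)
    · exact ⟨y, h1, fun w hw hwQ => h2 w hw hwQ.1⟩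
    · refine ⟨y, h2, fun w hw hwQ => ?_⟩
      rcases h3 w hw hwQ.1 with h | h
      · exact absurd h hwQ.2
      · exact h

open Classical in
lemma exch_sum (hE : Exch P) {Q : Set P} (hQ : IsUpperSet Q) {x x' : P} (hx : x ∈ Q)
    (hx' : x' ∈ Q) (hne : x ≠ x') (hm : ∀ z ∈ Q, ¬ z < x) (hm' : ∀ z ∈ Q, ¬ z < x') :
    (if Closing Q x then 1 else 0) + (if Closing (Q \ {x}) x' then 1 else 0) =
    (if Closing Q x' then 1 else 0) + (if Closing (Q \ {x'}) x then (1 : ℕ) else 0) := by
  have h1 := closing_diff_iff (Q := Q) hne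
  have h2 := closing_diff_iff (Q := Q) hne.symm
  by_cases hT : ∃ y, x ⋖ y ∧ x' ⋖ y ∧ ∀ w, w ⋖ y → w ∈ Q → w = x ∨ w = x'
  · have hT' : ∃ y, x' ⋖ y ∧ x ⋖ y ∧ ∀ w, w ⋖ y → w ∈ Q → w = x' ∨ w = x := by
      obtain ⟨y, a, b, c⟩ := hT
      exact ⟨y, b, a, fun w hw hwQ => (c w hw hwQ).symm⟩
    have hiff : Closing Q x ↔ Closing Q x' :=
      ⟨fun h => hE Q hQ x' hx' x hx hne.symm hm' hm h hT',
        fun h => hE Q hQ x hx x' hx' hne hm hm' h hT⟩
    have a1 : Closing (Q \ {x}) x' := h1.2 (Or.inr hT)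
    have a2 : Closing (Q \ {x'}) x := h2.2 (Or.inr hT')
    simp [a1, a2, hiff]
  · have hT' : ¬ ∃ y, x' ⋖ y ∧ x ⋖ y ∧ ∀ w, w ⋖ y → w ∈ Q → w = x' ∨ w = x := by
      rintro ⟨y, a, b, c⟩
      exact hT ⟨y, b, a, fun w hw hwQ => (c w hw hwQ).symm⟩
    have a1 : Closing (Q \ {x}) x' ↔ Closing Q x' := by
      rw [h1]; simp [hT]
    have a2 : Closing (Q \ {x'}) x ↔ Closing Q x := by
      rw [h2]; simp [hT']
    simp [a1, a2]
    ring

lemma diff_diff_comm' (Q : Set P) (x x' : P) : (Q \ {x}) \ {x'} = (Q \ {x'}) \ {x} := by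
  ext z
  simp only [mem_sdiff, mem_singleton_iff]
  tauto

lemma bconst_of_exch [Finite P] (hE : Exch P) {Q : Set P} (hQ : IsUpperSet Q) : BConst Q := by
  classical
  induction hn : Q.ncard using Nat.strong_induction_on generalizing Q with
  | _ n ih =>
    intro L L' hL hL'
    cases L with
    | nil =>
      have := isLinExt_nil_iff.1 hL
      subst this
      cases L' with
      | nil => rfl
      | cons x l => exact absurd (isLinExt_cons.1 hL').1 (by simp)
    | cons x l =>
      cases L' with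
      | nil =>
        have := isLinExt_nil_iff.1 hL'
        subst this
        exact absurd (isLinExt_cons.1 hL).1 (by simp)
      | cons x' l' =>
        obtain ⟨hx, hm, hl⟩ := isLinExt_cons.1 hL
        obtain ⟨hx', hm', hl'⟩ := isLinExt_cons.1 hL'
        have hlt : (Q \ {x}).ncard < n := by
          rw [← hn]
          exact Set.ncard_sdiff_singleton_lt_of_mem hx (Set.toFinite Q)
        have hlt' : (Q \ {x'}).ncard < n := by
          rw [← hn]
          exact Set.ncard_sdiff_singleton_lt_of_mem hx' (Set.toFinite Q)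
        have hQx := isUpperSet_diff_min hQ hm
        have hQx' := isUpperSet_diff_min hQ hm'
        have c1 := ih _ hlt hQx rfl
        have c2 := ih _ hlt' hQx' rfl
        by_cases hne : x = x'
        · subst hne
          simp only [bcount]
          rw [c1 l l' hl hl']
        · obtain ⟨m, hm2⟩ := exists_linExt ((Q \ {x}) \ {x'})
          have e1 : IsLinExt (Q \ {x}) (x' :: m) :=
            isLinExt_cons.2 ⟨⟨hx', fun h => hne (mem_singleton_iff.1 h).symm⟩,
              fun z hz => hm' z hz.1, hm2⟩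
          have e2 : IsLinExt (Q \ {x'}) (x :: m) := by
            refine isLinExt_cons.2 ⟨⟨hx, fun h => hne (mem_singleton_iff.1 h)⟩,
              fun z hz => hm z hz.1, ?_⟩
            rw [diff_diff_comm']
            exact hm2
          have s := exch_sum hE hQ hx hx' hne hm hm'
          simp only [bcount]
          rw [c1 l (x' :: m) hl e1, c2 l' (x :: m) hl' e2]
          simp only [bcount]
          rw [diff_diff_comm' Q x' x]
          omega

/-! ### from greedy upper sets to the exchange property -/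

lemma jn_step [Finite P] (hG : ∀ Q : Set P, IsUpperSet Q → IsGreedy Q) {Q C : Set P}
    (hQ : IsUpperSet Q) (hnc : ¬ IsChain (· ≤ ·) Q) (hC : IsGreedyChain Q C) :
    jumpNumber Q = jumpNumber (Q \ C) + 1 := by
  obtain ⟨n, hn⟩ := exists_run (Q \ C)
  have h1 := hG _ (diff_upper hQ hC.1.2.2) n hn
  have h2 := hG _ hQ (n + 1) (Run.step hnc hC hn)
  omega

lemma jn_chain [Finite P] (hG : ∀ Q : Set P, IsUpperSet Q → IsGreedy Q) {Q : Set P}
    (hQ : IsUpperSet Q) (hc : IsChain (· ≤ ·) Q) : jumpNumber Q = 0 :=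
  (hG Q hQ 0 (Run.stop hc)).symm

lemma bcount_of_greedy [Finite P] (hG : ∀ Q : Set P, IsUpperSet Q → IsGreedy Q) (L : List P) :
    ∀ (Q : Set P), IsUpperSet Q → IsLinExt Q L → L ≠ [] →
      bcount Q L + jumpNumber Q + 1 = Q.ncard := by
  classical
  induction L with
  | nil => intro Q _ _ h; exact absurd rfl h
  | cons x l ih =>
    intro Q hQ hL _
    obtain ⟨hx, hm, hl⟩ := isLinExt_cons.1 hL
    have hQx := isUpperSet_diff_min hQ hm
    obtain ⟨C, hC, hxC⟩ := exists_greedy_chain hx hm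
    have hleast : ∀ c' ∈ C, x ≤ c' := by
      intro c' hc'
      rcases hC.1.2.1.total hxC hc' with h | h
      · exact h
      · rcases h.lt_or_eq with h' | h'
        · exact absurd h' (hm c' (hC.1.1 hc'))
        · exact h'.ge
    have hcard : (Q \ {x}).ncard + 1 = Q.ncard :=
      Set.ncard_sdiff_singleton_add_one hx (Set.toFinite Q)
    have hcl : l = [] ∨ l ≠ [] := em _
    rcases (C \ {x}).eq_empty_or_nonempty with he | he
    · have hCx : C = {x} := by
        apply Set.Subset.antisymm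
        · rwa [← Set.sdiff_eq_empty]
        · simpa using hxC
      subst hCx
      have hnc := not_closing_of_single hQ hC
      simp only [bcount, hnc, if_false]
      rcases hcl with hl0 | hl0
      · subst hl0
        have hQe := isLinExt_nil_iff.1 hl
        rw [hQe, Set.ncard_empty] at hcard
        have hch : IsChain (· ≤ ·) Q := by
          have : Q ⊆ {x} := by rwa [← Set.sdiff_eq_empty]
          exact IsChain.mono this (by simp [IsChain])
        rw [jn_chain hG hQ hch]
        simp only [bcount]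
        omega
      · have h1 := ih (Q \ {x}) hQx hl hl0
        have hnch : ¬ IsChain (· ≤ ·) Q := by
          intro hch
          have := hC.2 (greedy_self_of_chain hch).1 (by simpa using hx)
          have hQe : Q \ {x} = ∅ := by rwa [Set.sdiff_eq_empty]
          rw [hQe] at hl
          apply hl0
          cases l with
          | nil => rfl
          | cons a t => exact absurd (isLinExt_cons.1 hl).1 (by simp)
        rw [jn_step hG hQ hnch hC]
        omega
    · obtain ⟨-, hC1, hclo, d, hd, -, -⟩ := greedy_tail hQ hC hxC hleast he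
      have hl0 : l ≠ [] := by
        rintro rfl
        have := isLinExt_nil_iff.1 hl
        have hd' : d ∈ Q \ {x} := hC1.1.1 hd
        rw [this] at hd'
        exact hd'
      have h1 := ih (Q \ {x}) hQx hl hl0
      have heq : (Q \ {x}) \ (C \ {x}) = Q \ C := by
        ext z
        simp only [mem_sdiff, mem_singleton_iff]
        constructor
        · rintro ⟨⟨h1, h2⟩, h3⟩
          exact ⟨h1, fun h => h3 ⟨h, h2⟩⟩
        · rintro ⟨h1, h2⟩
          refine ⟨⟨h1, fun h => h2 (h ▸ hxC)⟩, fun h => h2 h.1⟩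
      have hjn : jumpNumber Q = jumpNumber (Q \ {x}) := by
        by_cases hch : IsChain (· ≤ ·) Q
        · rw [jn_chain hG hQ hch, jn_chain hG hQx (hch.mono sdiff_subset)]
        · have hch' : ¬ IsChain (· ≤ ·) (Q \ {x}) := by
            intro hch'
            have h5 := hC1.2 (greedy_self_of_chain hch').1 hC1.1.1
            apply hch
            have hsub : Q ⊆ C := by
              intro z hz
              by_cases hzx : z = x
              · exact hzx ▸ hxC
              · exact (h5 ⟨hz, hzx⟩).1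
            exact IsChain.mono hsub hC.1.2.1
          rw [jn_step hG hQ hch hC, jn_step hG hQx hch' hC1, heq]
      simp only [bcount, hclo, if_true]
      omega

lemma exch_of_bconst [Finite P] (hB : ∀ Q : Set P, IsUpperSet Q → BConst Q) : Exch P := by
  classical
  intro Q hQ x hx x' hx' hne hm hm' hcl hT
  by_contra hncl
  obtain ⟨m, hm2⟩ := exists_linExt ((Q \ {x}) \ {x'})
  have e1 : IsLinExt Q (x :: x' :: m) :=
    isLinExt_cons.2 ⟨hx, hm, isLinExt_cons.2 ⟨⟨hx', fun h => hne (mem_singleton_iff.1 h).symm⟩,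
      fun z hz => hm' z hz.1, hm2⟩⟩
  have e2 : IsLinExt Q (x' :: x :: m) := by
    refine isLinExt_cons.2 ⟨hx', hm', isLinExt_cons.2 ⟨⟨hx, fun h => hne (mem_singleton_iff.1 h)⟩,
      fun z hz => hm z hz.1, ?_⟩⟩
    rw [diff_diff_comm']
    exact hm2
  have h := hB Q hQ _ _ e1 e2
  have hT' : Closing (Q \ {x'}) x := by
    rw [closing_diff_iff hne.symm]
    obtain ⟨y, a, b, c⟩ := hT
    exact Or.inr ⟨y, b, a, fun w hw hwQ => (c w hw hwQ).symm⟩
  simp only [bcount, hncl, hcl, hT', if_true, if_false] at h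
  rw [diff_diff_comm' Q x' x] at h
  split_ifs at h <;> omega

lemma exch_of_greedy [Finite P] (hG : ∀ Q : Set P, IsUpperSet Q → IsGreedy Q) : Exch P := by
  apply exch_of_bconst
  intro Q hQ L L' hL hL'
  cases L with
  | nil =>
    have := isLinExt_nil_iff.1 hL
    subst this
    cases L' with
    | nil => rfl
    | cons x l => exact absurd (isLinExt_cons.1 hL').1 (by simp)
  | cons x l =>
    cases L' with
    | nil =>
      have := isLinExt_nil_iff.1 hL'
      subst this
      exact absurd (isLinExt_cons.1 hL).1 (by simp)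
    | cons x' l' =>
      have h1 := bcount_of_greedy hG _ Q hQ hL (by simp)
      have h2 := bcount_of_greedy hG _ Q hQ hL' (by simp)
      omega

/-- the elimination property of lower covers -/
def Elim (P : Type*) [PartialOrder P] : Prop :=
  ∀ ⦃x y z y' : P⦄, x ⋖ y → z ⋖ y → z ⋖ y' → (∀ w, w ⋖ y' → ¬ x ≤ w) →
    ∃ u, x ⋖ u ∧ ∀ w, w ⋖ u → w < z ∨ ∃ v, (v ⋖ y ∨ v ⋖ y') ∧ v ≠ z ∧ w ≤ v

lemma exch_of_elim (hE : Elim P) : Exch P := by
  rintro Q hQ x hx z hz hne hmx hmz ⟨y', hzy', hy'⟩ ⟨y, hxy, hzy, hy⟩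
  obtain ⟨u, hxu, hu⟩ := hE hxy hzy hzy' (by
    intro w hw hxw
    have hwQ : w ∈ Q := hQ hxw hx
    have := hy' w hw hwQ
    subst this
    rcases hxw.lt_or_eq with h | h
    · exact hmz x hx h
    · exact hne h)
  refine ⟨u, hxu, fun w hw hwQ => ?_⟩
  rcases hu w hw with h | ⟨v, hv, hvz, hwv⟩
  · exact absurd h (hmz w hwQ)
  · have hvQ : v ∈ Q := hQ hwv hwQ
    have hvx : v = x := by
      rcases hv with hv | hv
      · rcases hy v hv hvQ with h | h
        · exact h
        · exact absurd h hvz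
      · exact absurd (hy' v hv hvQ) hvz
    subst hvx
    rcases hwv.lt_or_eq with h | h
    · exact absurd h (hmx w hwQ)
    · exact h

lemma covBy_antichain {a b c : P} (ha : a ⋖ c) (hb : b ⋖ c) (hab : a ≤ b) : a = b := by
  rcases hab.lt_or_eq with h | h
  · exact absurd hb.lt (fun hbc => ha.2 h hbc)
  · exact h

lemma elim_of_exch (hE : Exch P) : Elim P := by
  intro x y z y' hxy hzy hzy' hx
  have hxz : x ≠ z := by
    rintro rfl
    exact hx x hzy' le_rfl
  set Q : Set P := {w | ¬ (w < z ∨ w < x ∨ ∃ v, (v ⋖ y ∨ v ⋖ y') ∧ v ≠ z ∧ v ≠ x ∧ w ≤ v)} with hQd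
  have hQ : IsUpperSet Q := by
    intro a b hab ha hb
    apply ha
    rcases hb with h | h | ⟨v, h1, h2, h3, h4⟩
    · exact Or.inl (hab.trans_lt h)
    · exact Or.inr (Or.inl (hab.trans_lt h))
    · exact Or.inr (Or.inr ⟨v, h1, h2, h3, hab.trans h4⟩)
  have hxQ : x ∈ Q := by
    rintro (h | h | ⟨v, h1 | h1, h2, h3, h4⟩)
    · exact hxz (covBy_antichain hxy hzy h.le)
    · exact lt_irrefl _ h
    · exact h3 (covBy_antichain hxy h1 h4).symm
    · exact hx v h1 h4
  have hzQ : z ∈ Q := by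
    rintro (h | h | ⟨v, h1 | h1, h2, h3, h4⟩)
    · exact lt_irrefl _ h
    · exact hxz (covBy_antichain hzy hxy h.le).symm
    · exact h2 (covBy_antichain hzy h1 h4).symm
    · exact h2 (covBy_antichain hzy' h1 h4).symm
  have hmx : ∀ w ∈ Q, ¬ w < x := fun w hw h => hw (Or.inr (Or.inl h))
  have hmz : ∀ w ∈ Q, ¬ w < z := fun w hw h => hw (Or.inl h)
  have hcz : Closing Q z := by
    refine ⟨y', hzy', fun w hw hwQ => ?_⟩
    by_contra hwz
    by_cases hwx : w = x
    · subst hwx
      exact hx w hw le_rfl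
    · exact hwQ (Or.inr (Or.inr ⟨w, Or.inr hw, hwz, hwx, le_rfl⟩))
  obtain ⟨u, hxu, hu⟩ := hE Q hQ x hxQ z hzQ hxz hmx hmz hcz ⟨y, hxy, hzy, fun w hw hwQ => by
    by_contra hcon
    push Not at hcon
    exact hwQ (Or.inr (Or.inr ⟨w, Or.inl hw, hcon.2, hcon.1, le_rfl⟩))⟩
  refine ⟨u, hxu, fun w hw => ?_⟩
  by_cases hwQ : w ∈ Q
  · have := hu w hw hwQ
    subst this
    exact Or.inr ⟨w, Or.inl hxy, hxz, le_rfl⟩
  · rw [hQd, mem_ofPred_eq, not_not] at hwQ
    rcases hwQ with h | h | ⟨v, h1, h2, h3, h4⟩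
    · exact Or.inl h
    · exact absurd hxu.lt (fun hh => hw.2 h hh)
    · exact Or.inr ⟨v, h1, h2, h4⟩

theorem hereditary_iff [Finite P] : (∀ Q : Set P, IsUpperSet Q → IsGreedy Q) ↔ Elim P :=
  ⟨fun h => elim_of_exch (exch_of_greedy h),
    fun h _ hQ => isGreedy_of_bconst hQ (bconst_of_exch (exch_of_elim h) hQ)⟩

end Pool.Agent.Work.MP_02c6ed_co
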