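import Mathlib

/-!
# The poset attached to a CNF formula
-/

set_option autoImplicit false

namespace Pool.Agent.Work.MP_02c6ed_co

/-- The elements of the poset attached to a CNF formula with set of variables `V` and set of
clauses `K`; a literal is a pair in `V × Bool` and `T k` is the set of literals of the
clause `k`. -/
inductive SatPoset {V K : Type} (T : K → Set (V × Bool)) : Type
  | z (v : V)
  | lit (v : V) (s : Bool)
  | top (v : V) (s : Bool)
  | a
  | w (k : K)

namespace SatPoset

variable {V K : Type} {T : K → Set (V × Bool)}

/-- The order relation: besides `x ≤ x`, the relations are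
`z v < lit v s < top v s`, `z v < a < w k`, `z v < w k`, and
`lit v s < w k` when `(v, s)` belongs to the clause `k`. -/
def Le : SatPoset T → SatPoset T → Prop
  | z v, z v' => v = v'
  | z v, lit v' _ => v = v'
  | z v, top v' _ => v = v'
  | z _, a => True
  | z _, w _ => True
  | lit v s, lit v' s' => v = v' ∧ s = s'
  | lit v s, top v' s' => v = v' ∧ s = s'
  | lit v s, w k => (v, s) ∈ T k
  | top v s, top v' s' => v = v' ∧ s = s'
  | a, a => True
  | a, w _ => True
  | w k, w k' => k = k'
  | _, _ => False

instance : PartialOrder (SatPoset T) where
  le := Le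
  le_refl x := by cases x <;> simp [Le]
  le_trans x y t hxy hyt := by
    cases x <;> cases y <;> cases t <;> simp_all [Le]
  le_antisymm x y hxy hyx := by
    cases x <;> cases y <;> simp_all [Le]

end SatPoset

/-- Two copies of the formula `T` on disjoint sets of variables. -/
def dbl {V K : Type} (T : K → Set (V × Bool)) : K × Bool → Set ((V × Bool) × Bool) :=
  fun k => {l | l.1.2 = k.2 ∧ (l.1.1, l.2) ∈ T k.1}

end Pool.Agent.Work.MP_02c6ed_co
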