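import Pool.Agent.Work.MP_02c6ed_co.Local
import Pool.Agent.Work.MP_02c6ed_co.HardDefs

/-!
# Greedy posets and satisfiability
-/

set_option autoImplicit false

namespace Pool.Agent.Work.MP_02c6ed_co

open Set

section general

variable {P : Type*} [PartialOrder P]

open Classical in
/-- number of maximal elements in a list is at most the number of blocks -/
lemma countP_isMax_le (L : List P) : L ≠ [] →
    L.countP (fun x => decide (IsMax x)) ≤ jmp L + 1 := by
  induction L with
  | nil => intro h; exact absurd rfl h
  | cons x l ih =>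
    intro _
    cases l with
    | nil =>
      simp only [List.countP_cons, List.countP_nil]
      split_ifs <;> omega
    | cons y t =>
      have h1 := ih (by simp)
      rw [List.countP_cons, jmp_cons_cons]
      by_cases hx : IsMax x
      · have : ¬ x ⋖ y := fun h => hx.not_lt h.lt
        simp only [this, hx, if_false, decide_true, if_true]
        omega
      · simp only [hx, decide_false, Bool.false_eq_true, if_false]
        split_ifs <;> omega

open Classical in
lemma ncard_max_eq {Q : Set P} {L : List P} (hL : IsLinExt Q L) :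
    {x ∈ Q | IsMax x}.ncard = L.countP (fun x => decide (IsMax x)) := by
  have : {x ∈ Q | IsMax x} = ↑(L.filter (fun x => decide (IsMax x))).toFinset := by
    ext x
    simp [hL.2.1 x]
  rw [this, Set.ncard_coe_finset, List.toFinset_card_of_nodup (hL.1.filter _),
    List.countP_eq_length_filter]

lemma ncard_max_le [Finite P] {Q : Set P} (hQ : IsUpperSet Q) (hne : Q.Nonempty) :
    {x ∈ Q | IsMax x}.ncard ≤ jumpNumber Q + 1 := by
  classical
  obtain ⟨L, h1, h2⟩ := jumpNumber_mem hQ
  rw [ncard_max_eq h1, ← h2]
  apply countP_isMax_le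
  rintro rfl
  exact hne.ne_empty (isLinExt_nil_iff.1 h1)

lemma run_le_max [Finite P] (I : Set P → Prop)
    (hI : ∀ Q C : Set P, IsUpperSet Q → Q.Nonempty → I Q → IsGreedyChain Q C →
      I (Q \ C) ∧ ∃ c ∈ C, IsMax c) {Q : Set P} {n : ℕ} (hr : Run Q n) :
    IsUpperSet Q → Q.Nonempty → I Q → n + 1 ≤ {x ∈ Q | IsMax x}.ncard := by
  induction hr with
  | @stop Q hch =>
    intro hQ hne hIQ
    obtain ⟨-, c, hc, hmax⟩ := hI Q Q hQ hne hIQ (greedy_self_of_chain hch)
    have : 0 < {x ∈ Q | IsMax x}.ncard :=
      (Set.ncard_pos (Set.toFinite _)).2 ⟨c, hc, hmax⟩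
    omega
  | @step Q C n hnc hC _ ih =>
    intro hQ hne hIQ
    have hdne : (Q \ C).Nonempty := by
      rw [Set.nonempty_iff_ne_empty]
      intro h
      rw [Set.sdiff_eq_empty] at h
      exact hnc (hC.1.2.1.mono h)
    obtain ⟨h1, c, hc, hmax⟩ := hI Q C hQ hne hIQ hC
    have h2 := ih (diff_upper hQ hC.1.2.2) hdne h1
    have h3 : {x ∈ Q \ C | IsMax x}.ncard < {x ∈ Q | IsMax x}.ncard := by
      apply Set.ncard_lt_ncard _ (Set.toFinite _)
      refine ⟨fun x hx => ⟨hx.1.1, hx.2⟩, fun h => ?_⟩
      exact (h ⟨hC.1.1 hc, hmax⟩).1.2 hc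
    omega

/-- if every greedy chain met on the way contains a maximal element, the poset is greedy -/
lemma isGreedy_of_max [Finite P] (I : Set P → Prop) (h0 : I univ)
    (hI : ∀ Q C : Set P, IsUpperSet Q → Q.Nonempty → I Q → IsGreedyChain Q C →
      I (Q \ C) ∧ ∃ c ∈ C, IsMax c) : IsGreedy (univ : Set P) := by
  intro n hn
  have hup : IsUpperSet (univ : Set P) := fun _ _ _ _ => mem_univ _
  apply le_antisymm _ (jumpNumber_le_of_run hup hn)
  rcases (univ : Set P).eq_empty_or_nonempty with he | hne
  · rw [he] at hn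
    rw [run_empty hn]
    exact Nat.zero_le _
  · have h1 := run_le_max I hI hn hup hne h0
    have h2 := ncard_max_le hup hne
    omega

lemma greedy_of_max {Q C : Set P} {m : P} (hC : IsDC Q C) (hm : m ∈ C) (hmax : IsMax m) :
    IsGreedyChain Q C := by
  refine ⟨hC, fun X hX hsub x hx => ?_⟩
  rcases hX.2.1.total hx (hsub hm) with h | h
  · exact hC.2.2 m hm x (hX.1 hx) h
  · exact hC.2.2 m hm x (hX.1 hx) (hmax h)

/-- a greedy chain with greatest element `t` cannot be extended -/
lemma no_ext {Q C : Set P} (hC : IsGreedyChain Q C) {y : P} (hy : y ∈ Q) (hyC : y ∉ C)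
    (hle : ∀ c ∈ C, c ≤ y) (hlow : ∀ z ∈ Q, z < y → z ∈ C) : False := by
  apply hyC
  have : insert y C ⊆ C := by
    refine hC.2 ⟨?_, ?_, ?_⟩ (subset_insert _ _)
    · rintro z (h | h)
      · exact h ▸ hy
      · exact hC.1.1 h
    · exact hC.1.2.1.insert (fun b hb _ => Or.inr (hle b hb))
    · rintro x hx z hz hzx
      by_cases hzy : z = y
      · exact Or.inl hzy
      · rcases hx with hx | hx
        · exact Or.inr (hlow z hz (lt_of_le_of_ne (hx ▸ hzx) hzy))
        · exact Or.inr (hC.1.2.2 x hx z hz hzx)
  exact this (Or.inl rfl)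

lemma exists_greatest [Finite P] {C : Set P} (hC : IsChain (· ≤ ·) C) (hne : C.Nonempty) :
    ∃ c ∈ C, ∀ c' ∈ C, c' ≤ c := by
  obtain ⟨c, hc⟩ := (Set.toFinite C).exists_maximal hne
  refine ⟨c, hc.1, fun c' hc' => ?_⟩
  rcases hC.total hc.1 hc' with h | h
  · exact hc.2 hc' h
  · exact h

end general

namespace SatPoset

variable {V K : Type} {T : K → Set (V × Bool)}

lemma le_def (x y : SatPoset T) : x ≤ y ↔ Le x y := Iff.rfl

instance [Finite V] [Finite K] : Finite (SatPoset T) := by
  let f : SatPoset T → V ⊕ (V × Bool) ⊕ (V × Bool) ⊕ Unit ⊕ K := fun x =>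
    match x with
    | z v => Sum.inl v
    | lit v s => Sum.inr (Sum.inl (v, s))
    | top v s => Sum.inr (Sum.inr (Sum.inl (v, s)))
    | a => Sum.inr (Sum.inr (Sum.inr (Sum.inl ())))
    | w k => Sum.inr (Sum.inr (Sum.inr (Sum.inr k)))
  apply Finite.of_injective f
  intro x y hxy
  cases x <;> cases y <;> simp_all [f]

lemma isMax_top (v : V) (s : Bool) : IsMax (top v s : SatPoset T) := by
  intro y hy
  cases y <;> simp_all [le_def, Le]

lemma isMax_w (k : K) : IsMax (w k : SatPoset T) := by
  intro y hy
  cases y <;> simp_all [le_def, Le]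

lemma lt_z {x : SatPoset T} {v : V} (h : x < z v) : False := by
  have h1 := h.le
  have h2 := h.ne
  cases x <;> simp_all [le_def, Le]

lemma lt_lit {x : SatPoset T} {v : V} {s : Bool} (h : x < lit v s) : x = z v := by
  have h1 := h.le
  have h2 := h.ne
  cases x <;> simp_all [le_def, Le]

lemma lt_top' {x : SatPoset T} {v : V} {s : Bool} (h : x < top v s) :
    x = z v ∨ x = lit v s := by
  have h1 := h.le
  have h2 := h.ne
  cases x <;> simp_all [le_def, Le]

lemma lt_a {x : SatPoset T} (h : x < a) : ∃ v, x = z v := by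
  have h1 := h.le
  have h2 := h.ne
  cases x <;> simp_all [le_def, Le]

lemma lt_w {x : SatPoset T} {k : K} (h : x < w k) :
    (∃ v, x = z v) ∨ x = a ∨ ∃ l ∈ T k, x = lit l.1 l.2 := by
  have h1 := h.le
  have h2 := h.ne
  cases x <;> simp_all [le_def, Le]

/-- the invariant for unsatisfiable formulas -/
def Inv (Q : Set (SatPoset T)) : Prop :=
  a ∈ Q → ∀ v, z v ∉ Q → ∃ s, lit v s ∉ Q

lemma greedy_of_unsat [Finite V] [Finite K]
    (hT : ∀ (s : V → Bool) (v₀ : V), ∃ k, ∀ l ∈ T k, l.1 ≠ v₀ ∧ l.2 = s l.1)
    (hT' : ∀ s : V → Bool, ∃ k, ∀ l ∈ T k, l.2 = s l.1) :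
    IsGreedy (univ : Set (SatPoset T)) := by
  refine isGreedy_of_max Inv (fun _ v hv => absurd (mem_univ _) hv) ?_
  intro Q C hQ hne hI hC
  have hCne := greedy_nonempty hne hC
  obtain ⟨t, ht, htop⟩ := exists_greatest hC.1.2.1 hCne
  have hmax : IsMax t := by
    cases t with
    | z v =>
      exfalso
      have h1 : (lit v false : SatPoset T) ∈ Q := hQ (by simp [le_def, Le]) (hC.1.1 ht)
      refine no_ext hC h1 (fun h => ?_) (fun c hc => (htop c hc).trans (by simp [le_def, Le])) ?_
      · have := htop _ h
        simp [le_def, Le] at this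
      · intro x hx hlt
        rw [lt_lit hlt]
        exact ht
    | lit v s =>
      exfalso
      have h1 : (top v s : SatPoset T) ∈ Q := hQ (by simp [le_def, Le]) (hC.1.1 ht)
      refine no_ext hC h1 (fun h => ?_) (fun c hc => (htop c hc).trans (by simp [le_def, Le])) ?_
      · have := htop _ h
        simp [le_def, Le] at this
      · intro x hx hlt
        rcases lt_top' hlt with rfl | rfl
        · exact hC.1.2.2 _ ht _ hx (by simp [le_def, Le])
        · exact ht
    | top v s => exact isMax_top v s
    | a =>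
      exfalso
      have haQ : (a : SatPoset T) ∈ Q := hC.1.1 ht
      have key : ∃ k, ∀ l ∈ T k, (lit l.1 l.2 : SatPoset T) ∉ Q := by
        by_cases hz : ∃ v₀, (z v₀ : SatPoset T) ∈ Q
        · obtain ⟨v₀, hv₀⟩ := hz
          have huniq : ∀ v, v ≠ v₀ → (z v : SatPoset T) ∉ Q := by
            intro v hv hvQ
            have h1 := hC.1.2.2 _ ht _ hv₀ (by simp [le_def, Le])
            have h2 := hC.1.2.2 _ ht _ hvQ (by simp [le_def, Le])
            rcases hC.1.2.1.total h1 h2 with h | h
            · simp [le_def, Le] at h; exact hv h.symm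
            · simp [le_def, Le] at h; exact hv h
          have : ∀ v, ∃ s, v ≠ v₀ → (lit v s : SatPoset T) ∉ Q := by
            intro v
            by_cases hv : v = v₀
            · exact ⟨true, fun h => absurd hv h⟩
            · obtain ⟨s, hs⟩ := hI haQ v (huniq v hv)
              exact ⟨s, fun _ => hs⟩
          choose s hs using this
          obtain ⟨k, hk⟩ := hT s v₀
          refine ⟨k, fun l hl => ?_⟩
          obtain ⟨h1, h2⟩ := hk l hl
          rw [h2]
          exact hs l.1 h1
        · push Not at hz
          have : ∀ v, ∃ s, (lit v s : SatPoset T) ∉ Q := fun v => hI haQ v (hz v)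
          choose s hs using this
          obtain ⟨k, hk⟩ := hT' s
          refine ⟨k, fun l hl => ?_⟩
          rw [hk l hl]
          exact hs l.1
      obtain ⟨k, hk⟩ := key
      have h1 : (w k : SatPoset T) ∈ Q := hQ (by simp [le_def, Le]) haQ
      refine no_ext hC h1 (fun h => ?_) (fun c hc => (htop c hc).trans (by simp [le_def, Le])) ?_
      · have := htop _ h
        simp [le_def, Le] at this
      · intro x hx hlt
        rcases lt_w hlt with ⟨v', rfl⟩ | rfl | ⟨l, hl, rfl⟩
        · exact hC.1.2.2 _ ht _ hx (by simp [le_def, Le])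
        · exact ht
        · exact absurd hx (hk _ hl)
    | w k => exact isMax_w k
  refine ⟨?_, t, ht, hmax⟩
  intro haQ v hv
  by_cases hvQ : (z v : SatPoset T) ∈ Q
  · have hvC : (z v : SatPoset T) ∈ C := by
      by_contra h
      exact hv ⟨hvQ, h⟩
    have h1 := htop _ hvC
    cases t with
    | z v' =>
      exfalso
      have := hmax (show (z v' : SatPoset T) ≤ lit v' true by simp [le_def, Le])
      simp [le_def, Le] at this
    | lit v' s' =>
      exfalso
      have := hmax (show (lit v' s' : SatPoset T) ≤ top v' s' by simp [le_def, Le])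
      simp [le_def, Le] at this
    | top v' s' =>
      have hvv : v = v' := by simpa [le_def, Le] using h1
      subst hvv
      refine ⟨s', fun h => h.2 ?_⟩
      exact hC.1.2.2 _ ht _ h.1 (by simp [le_def, Le])
    | a =>
      exact absurd ht haQ.2
    | w k =>
      exact absurd (hC.1.2.2 _ ht _ haQ.1 (by simp [le_def, Le])) haQ.2
  · obtain ⟨s, hs⟩ := hI haQ.1 v hvQ
    exact ⟨s, fun h => hs h.1⟩

/-- what is left after removing the variables in `Z` and the literals in `S` -/
def rest (Z : Set V) (S : Set (V × Bool)) : Set (SatPoset T) := {x | match x with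
  | z v => v ∉ Z
  | lit v s => (v, s) ∉ S
  | top v s => (v, s) ∉ S
  | a => True
  | w _ => True}

lemma stage_rest [Finite V] [Finite K] (n : ℕ) : ∀ (Z : Set V) (S : Set (V × Bool)),
    S.ncard = n → (∀ l ∈ S, l.1 ∈ Z) → (∀ u ∈ Z, ∃ s, (u, s) ∈ S) →
    Stage (rest Z S : Set (SatPoset T)) := by
  induction n with
  | zero =>
    intro Z S hn h1 h2
    have hS : S = ∅ := (Set.ncard_eq_zero (Set.toFinite S)).1 hn
    subst hS
    have hZ : Z = ∅ := by
      rw [Set.eq_empty_iff_forall_notMem]
      intro u hu
      obtain ⟨s, hs⟩ := h2 u hu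
      exact hs
    subst hZ
    have : (rest ∅ ∅ : Set (SatPoset T)) = univ := by
      ext x
      cases x <;> simp [rest]
    rw [this]
    exact Stage.start
  | succ n ih =>
    intro Z S hn h1 h2
    have hne : S.Nonempty := by
      rw [Set.nonempty_iff_ne_empty]
      rintro rfl
      simp at hn
    obtain ⟨⟨u, s⟩, hl⟩ := hne
    have hcard : (S \ {(u, s)}).ncard = n := by
      have := Set.ncard_sdiff_singleton_add_one hl (Set.toFinite S)
      omega
    have huZ : u ∈ Z := h1 _ hl
    by_cases hs : (u, !s) ∈ S
    · have hst := ih Z (S \ {(u, s)}) hcard (fun l h => h1 l h.1) (by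
        intro u' hu'
        by_cases h : u' = u
        · subst h
          exact ⟨!s, hs, by simp⟩
        · obtain ⟨s', hs'⟩ := h2 u' hu'
          exact ⟨s', hs', by simp [h]⟩)
      have hC : IsGreedyChain (rest Z (S \ {(u, s)}) : Set (SatPoset T))
          {lit u s, top u s} := by
        refine greedy_of_max (m := top u s) ⟨?_, ?_, ?_⟩ (by simp) (isMax_top u s)
        · rintro x (rfl | rfl) <;> simp [rest]
        · exact IsChain.pair (by simp [le_def, Le])
        · intro x hx y hy hyx
          have hz : y ≠ z u := by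
            rintro rfl
            exact hy huZ
          rcases hyx.lt_or_eq with h | rfl
          · rcases hx with rfl | rfl
            · exact absurd (lt_lit h) hz
            · rcases lt_top' h with h | h
              · exact absurd h hz
              · exact Or.inl h
          · exact hx
      have e : (rest Z S : Set (SatPoset T)) =
          rest Z (S \ {(u, s)}) \ {lit u s, top u s} := by
        ext x
        cases x with
        | lit v' s' =>
          simp only [rest, mem_ofPred_eq, mem_sdiff, mem_singleton_iff, mem_insert_iff,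
            Prod.mk.injEq, lit.injEq, reduceCtorEq, or_false]
          constructor
          · intro h
            exact ⟨fun h' => h h'.1, fun h' => h (by rw [h'.1, h'.2]; exact hl)⟩
          · rintro ⟨h, h'⟩ h''
            exact h ⟨h'', h'⟩
        | top v' s' =>
          simp only [rest, mem_ofPred_eq, mem_sdiff, mem_singleton_iff, mem_insert_iff,
            Prod.mk.injEq, top.injEq, reduceCtorEq, false_or]
          constructor
          · intro h
            exact ⟨fun h' => h h'.1, fun h' => h (by rw [h'.1, h'.2]; exact hl)⟩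
          · rintro ⟨h, h'⟩ h''
            exact h ⟨h'', h'⟩
        | _ => simp [rest]
      rw [e]
      exact hst.step hC
    · have hst := ih (Z \ {u}) (S \ {(u, s)}) hcard (by
        intro l h
        refine ⟨h1 l h.1, ?_⟩
        rintro hlu
        rw [mem_singleton_iff] at hlu
        obtain ⟨l1, l2⟩ := l
        simp only at hlu
        subst hlu
        have h3 := h.2
        have h4 := h.1
        cases l2 <;> cases s <;> simp_all) (by
        intro u' hu'
        obtain ⟨s', hs'⟩ := h2 u' hu'.1
        refine ⟨s', hs', ?_⟩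
        intro h
        rw [mem_singleton_iff, Prod.mk.injEq] at h
        exact hu'.2 h.1)
      have hC : IsGreedyChain (rest (Z \ {u}) (S \ {(u, s)}) : Set (SatPoset T))
          {z u, lit u s, top u s} := by
        refine greedy_of_max (m := top u s) ⟨?_, ?_, ?_⟩ (by simp) (isMax_top u s)
        · rintro x (rfl | rfl | rfl) <;> simp [rest]
        · have e1 : (z u : SatPoset T) ≤ lit u s := by simp [le_def, Le]
          have e2 : (z u : SatPoset T) ≤ top u s := by simp [le_def, Le]
          have e3 : (lit u s : SatPoset T) ≤ top u s := by simp [le_def, Le]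
          intro x hx y hy hxy
          rcases hx with rfl | rfl | rfl <;> rcases hy with rfl | rfl | rfl
          · exact absurd rfl hxy
          · exact Or.inl e1
          · exact Or.inl e2
          · exact Or.inr e1
          · exact absurd rfl hxy
          · exact Or.inl e3
          · exact Or.inr e2
          · exact Or.inr e3
          · exact absurd rfl hxy
        · intro x hx y hy hyx
          rcases hyx.lt_or_eq with h | rfl
          · rcases hx with rfl | rfl | rfl
            · exact absurd h (fun h => lt_z h)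
            · exact Or.inl (lt_lit h)
            · rcases lt_top' h with h | h
              · exact Or.inl h
              · exact Or.inr (Or.inl h)
          · exact hx
      have e : (rest Z S : Set (SatPoset T)) =
          rest (Z \ {u}) (S \ {(u, s)}) \ {z u, lit u s, top u s} := by
        ext x
        cases x with
        | z v' =>
          simp only [rest, mem_ofPred_eq, mem_sdiff, mem_singleton_iff, mem_insert_iff,
            z.injEq, reduceCtorEq, or_false]
          constructor
          · intro h
            exact ⟨fun h' => h h'.1, fun h' => h (h' ▸ huZ)⟩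
          · rintro ⟨h, h'⟩ h''
            exact h ⟨h'', h'⟩
        | lit v' s' =>
          simp only [rest, mem_ofPred_eq, mem_sdiff, mem_singleton_iff, mem_insert_iff,
            Prod.mk.injEq, lit.injEq, reduceCtorEq, or_false, false_or]
          constructor
          · intro h
            exact ⟨fun h' => h h'.1, fun h' => h (by rw [h'.1, h'.2]; exact hl)⟩
          · rintro ⟨h, h'⟩ h''
            exact h ⟨h'', h'⟩
        | top v' s' =>
          simp only [rest, mem_ofPred_eq, mem_sdiff, mem_singleton_iff, mem_insert_iff,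
            Prod.mk.injEq, top.injEq, reduceCtorEq, false_or]
          constructor
          · intro h
            exact ⟨fun h' => h h'.1, fun h' => h (by rw [h'.1, h'.2]; exact hl)⟩
          · rintro ⟨h, h'⟩ h''
            exact h ⟨h'', h'⟩
        | _ => simp [rest]
      rw [e]
      exact hst.step hC

lemma not_greedy_of_sat [Finite V] [Finite K] [Nonempty K] (s : V → Bool)
    (hs : ∀ k, ∃ l ∈ T k, l.2 ≠ s l.1) : ¬ IsGreedy (univ : Set (SatPoset T)) := by
  intro hG
  -- a maximal set of literals containing no clause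
  have hfin : {S : Set (V × Bool) | ∀ k, ∃ l ∈ T k, l ∉ S}.Finite := Set.toFinite _
  obtain ⟨S, hS0, hS⟩ := hfin.exists_le_maximal (a := {l | l.2 = s l.1}) (by
    intro k
    obtain ⟨l, h1, h2⟩ := hs k
    exact ⟨l, h1, h2⟩)
  have hSk := hS.1
  obtain ⟨k1⟩ := (inferInstance : Nonempty K)
  obtain ⟨l₀, -, hl₀⟩ := hSk k1
  obtain ⟨u, b⟩ := l₀
  have hins : ∃ k₀, ∀ l ∈ T k₀, l ∈ insert (u, b) S := by
    by_contra hcon
    push Not at hcon
    have := hS.2 (show insert (u, b) S ∈ {S : Set (V × Bool) | ∀ k, ∃ l ∈ T k, l ∉ S} from hcon)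
      (subset_insert _ _)
    exact hl₀ (this (Or.inl rfl))
  obtain ⟨k₀, hk₀⟩ := hins
  have hst : Stage (rest univ S : Set (SatPoset T)) := by
    refine stage_rest _ univ S rfl (fun _ _ => mem_univ _) (fun u _ => ⟨s u, hS0 ?_⟩)
    rfl
  have hI := interch_of_greedy hst.upper (hst.greedy hG)
  have hD0 : ∀ Q : Set (SatPoset T), (∀ v, z v ∉ Q) → lit u b ∈ Q → top u b ∈ Q →
      IsGreedyChain Q {lit u b, top u b} := by
    intro Q h1 h2 h3
    refine greedy_of_max (m := top u b) ⟨?_, ?_, ?_⟩ (by simp) (isMax_top u b)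
    · rintro x (rfl | rfl)
      · exact h2
      · exact h3
    · exact IsChain.pair (by simp [le_def, Le])
    · intro x hx y hy hyx
      have hz : y ≠ z u := by
        rintro rfl
        exact h1 _ hy
      rcases hyx.lt_or_eq with h | rfl
      · rcases hx with rfl | rfl
        · exact absurd (lt_lit h) hz
        · rcases lt_top' h with h | h
          · exact absurd h hz
          · exact Or.inl h
      · exact hx
  have hzr : ∀ v, (z v : SatPoset T) ∉ (rest univ S : Set (SatPoset T)) := by
    intro v; simp [rest]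
  have har : (a : SatPoset T) ∈ (rest univ S : Set (SatPoset T)) := by simp [rest]
  have hlr : (lit u b : SatPoset T) ∈ (rest univ S : Set (SatPoset T)) := hl₀
  have htr : (top u b : SatPoset T) ∈ (rest univ S : Set (SatPoset T)) := hl₀
  have hD := hD0 (rest univ S) hzr hlr htr
  have hC : IsGreedyChain (rest univ S : Set (SatPoset T)) {a} := by
    refine ⟨⟨?_, ?_, ?_⟩, ?_⟩
    · rintro x rfl; exact har
    · simp [IsChain]
    · rintro x rfl y hy hyx
      rcases hyx.lt_or_eq with h | h
      · obtain ⟨v, rfl⟩ := lt_a h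
        exact absurd hy (hzr v)
      · exact h
    · intro X hX hsub x hx
      have haX : (a : SatPoset T) ∈ X := hsub rfl
      have hcomp := hX.2.1.total haX hx
      cases x with
      | z v => exact absurd (hX.1 hx) (hzr v)
      | lit v s => simp [le_def, Le] at hcomp
      | top v s => simp [le_def, Le] at hcomp
      | a => rfl
      | w k =>
        exfalso
        obtain ⟨⟨v, s⟩, h1, h2⟩ := hSk k
        have h3 : (lit v s : SatPoset T) ∈ X :=
          hX.2.2 _ hx _ h2 (by simpa [le_def, Le] using h1)
        have := hX.2.1.total haX h3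
        simp [le_def, Le] at this
  have h1 := hI {lit u b, top u b} {a} hD hC (by
    have : ({lit u b, top u b} : Set (SatPoset T)) \ {a} = {lit u b, top u b} := by
      rw [sdiff_singleton_eq_self]
      simp
    rw [this]
    exact hD0 _ (fun v hv => hzr v hv.1) ⟨hlr, by simp⟩ ⟨htr, by simp⟩)
  have e : ({a} : Set (SatPoset T)) \ {lit u b, top u b} = {a} := by
    ext x
    cases x <;> simp
  rw [e] at h1
  refine no_ext h1 (y := w k₀) ⟨by simp [rest], by simp⟩ (by simp) ?_ ?_
  · rintro c rfl; simp [le_def, Le]
  · rintro x ⟨hx1, hx2⟩ hlt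
    rcases lt_w hlt with ⟨v, rfl⟩ | rfl | ⟨⟨v', s'⟩, h3, rfl⟩
    · exact absurd hx1 (hzr v)
    · rfl
    · exfalso
      rcases hk₀ _ h3 with h4 | h4
      · rw [Prod.mk.injEq] at h4
        obtain ⟨rfl, rfl⟩ := h4
        simp at hx2
      · exact hx1 h4

theorem greedy_iff_unsat [Finite V] [Finite K] [Nonempty K] (T : K → Set (V × Bool)) :
    IsGreedy (univ : Set (SatPoset (dbl T))) ↔
      ¬ ∃ τ : V → Bool, ∀ k, ∃ l ∈ T k, τ l.1 = l.2 := by
  constructor
  · rintro hG ⟨τ, hτ⟩
    refine not_greedy_of_sat (T := dbl T) (fun v => !(τ v.1)) ?_ hG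
    rintro ⟨k, b⟩
    obtain ⟨l, h1, h2⟩ := hτ k
    refine ⟨((l.1, b), l.2), ⟨rfl, h1⟩, ?_⟩
    simp [h2]
  · intro hun
    have key : ∀ (s : V × Bool → Bool) (b : Bool), ∃ k : K × Bool, k.2 = b ∧
        ∀ l ∈ dbl T k, l.2 = s l.1 := by
      intro s b
      by_contra hcon
      push Not at hcon
      apply hun
      refine ⟨fun v => !(s (v, b)), fun k => ?_⟩
      obtain ⟨l, h1, h2⟩ := hcon (k, b) rfl
      refine ⟨(l.1.1, l.2), h1.2, ?_⟩
      have h3 : l.1 = (l.1.1, b) := Prod.ext rfl h1.1
      simp only
      rw [h3] at h2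
      revert h2
      cases l.2 <;> cases s (l.1.1, b) <;> simp
    apply greedy_of_unsat
    · intro s v₀
      obtain ⟨k, hk1, hk2⟩ := key s (!v₀.2)
      refine ⟨k, fun l hl => ⟨?_, hk2 l hl⟩⟩
      rintro rfl
      have h1 := hl.1
      rw [hk1] at h1
      revert h1
      cases l.1.2 <;> simp
    · intro s
      obtain ⟨k, -, hk⟩ := key s true
      exact ⟨k, hk⟩

/-- there is no four-element chain -/
lemma no_four (x y t u : SatPoset T) (h1 : x < y) (h2 : y < t) : ¬ t < u := by
  intro h3
  cases u with
  | z v => exact lt_z h3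
  | lit v s =>
    rw [lt_lit h3] at h2
    exact lt_z h2
  | top v s =>
    rcases lt_top' h3 with rfl | rfl
    · exact lt_z h2
    · rw [lt_lit h2] at h1
      exact lt_z h1
  | a =>
    obtain ⟨v, rfl⟩ := lt_a h3
    exact lt_z h2
  | w k =>
    rcases lt_w h3 with ⟨v, rfl⟩ | rfl | ⟨l, -, rfl⟩
    · exact lt_z h2
    · obtain ⟨v, rfl⟩ := lt_a h2
      exact lt_z h1
    · rw [lt_lit h2] at h1
      exact lt_z h1

lemma card_eq [Finite V] [Finite K] :
    Nat.card (SatPoset T) = 5 * Nat.card V + Nat.card K + 1 := by
  have e : SatPoset T ≃ (V ⊕ (V × Bool) ⊕ (V × Bool) ⊕ Unit ⊕ K) :=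
    { toFun := fun x =>
        match x with
        | z v => Sum.inl v
        | lit v s => Sum.inr (Sum.inl (v, s))
        | top v s => Sum.inr (Sum.inr (Sum.inl (v, s)))
        | a => Sum.inr (Sum.inr (Sum.inr (Sum.inl ())))
        | w k => Sum.inr (Sum.inr (Sum.inr (Sum.inr k)))
      invFun := fun x =>
        match x with
        | Sum.inl v => z v
        | Sum.inr (Sum.inl (v, s)) => lit v s
        | Sum.inr (Sum.inr (Sum.inl (v, s))) => top v s
        | Sum.inr (Sum.inr (Sum.inr (Sum.inl _))) => a
        | Sum.inr (Sum.inr (Sum.inr (Sum.inr k))) => w k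
      left_inv := by intro x; cases x <;> rfl
      right_inv := by rintro (v | ⟨v, s⟩ | ⟨v, s⟩ | ⟨⟩ | k) <;> rfl }
  rw [Nat.card_congr e]
  simp only [Nat.card_sum, Nat.card_prod, Nat.card_eq_fintype_card (α := Bool), Fintype.card_bool,
    Nat.card_unique]
  ring

end SatPoset

end Pool.Agent.Work.MP_02c6ed_co
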