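import Pool.Agent.Work.MP_02c6ed_co.Exchange

set_option autoImplicit false

namespace Pool.Agent.Work.MP_02c6ed_co

open Set

variable {P : Type*} [PartialOrder P]

lemma closing_anti {Q Q' : Set P} (h : Q' ⊆ Q) {x : P} (hc : Closing Q x) : Closing Q' x := by
  obtain ⟨y, h1, h2⟩ := hc
  exact ⟨y, h1, fun w hw hwQ => h2 w hw (h hwQ)⟩

lemma bcount_append (K m : List P) : ∀ Q : Set P,
    bcount Q (K ++ m) = bcount Q K + bcount (Q \ {x | x ∈ K}) m := by
  classical
  induction K with
  | nil => intro Q; simp [bcount]
  | cons x l ih =>
    intro Q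
    simp only [List.cons_append, bcount]
    rw [ih]
    have : (Q \ {x}) \ {z | z ∈ l} = Q \ {z | z ∈ x :: l} := by
      ext z
      simp only [mem_sdiff, mem_singleton_iff, mem_ofPred_eq, List.mem_cons]
      tauto
    rw [this]
    ring

lemma bcount_le_length (l : List P) : ∀ Q : Set P, bcount Q l ≤ l.length := by
  classical
  induction l with
  | nil => intro Q; simp [bcount]
  | cons x l ih =>
    intro Q
    simp only [bcount, List.length_cons]
    have := ih (Q \ {x})
    split_ifs <;> omega

lemma bcount_eq_length (l : List P) : ∀ Q : Set P, (∀ x ∈ l, Closing Q x) →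
    bcount Q l = l.length := by
  classical
  induction l with
  | nil => intro Q _; simp [bcount]
  | cons x l ih =>
    intro Q h
    simp only [bcount, List.length_cons]
    rw [if_pos (h x (by simp)), ih (Q \ {x})
      (fun z hz => closing_anti sdiff_subset (h z (by simp [hz])))]
    ring

lemma bcount_eq_zero (l : List P) : ∀ Q : Set P, (∀ x ∈ l, ¬ Closing (Q \ {z | z ∈ l}) x) →
    bcount Q l = 0 := by
  classical
  induction l with
  | nil => intro Q _; simp [bcount]
  | cons x l ih =>
    intro Q h
    simp only [bcount]
    have h1 : ¬ Closing Q x := fun hc => h x (by simp) (closing_anti sdiff_subset hc)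
    have heq : (Q \ {x}) \ {z | z ∈ l} = Q \ {z | z ∈ x :: l} := by
      ext z
      simp only [mem_sdiff, mem_singleton_iff, mem_ofPred_eq, List.mem_cons]
      tauto
    rw [if_neg h1, ih (Q \ {x})]
    intro z hz
    rw [heq]
    exact h z (by simp [hz])

lemma IsLinExt.append {A B : Set P} {K m : List P} (hK : IsLinExt A K) (hm : IsLinExt B m)
    (hd : Disjoint A B) (hlt : ∀ a ∈ A, ∀ b ∈ B, ¬ b < a) : IsLinExt (A ∪ B) (K ++ m) := by
  obtain ⟨h1, h2, h3⟩ := hK
  obtain ⟨g1, g2, g3⟩ := hm
  refine ⟨?_, ?_, ?_⟩
  · rw [List.nodup_append]
    refine ⟨h1, g1, ?_⟩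
    intro a ha b hb hab
    subst hab
    exact Set.disjoint_left.1 hd ((h2 a).1 ha) ((g2 a).1 hb)
  · intro x
    rw [List.mem_append, h2, g2, mem_union]
  · rw [List.pairwise_append]
    refine ⟨h3, g3, ?_⟩
    intro a ha b hb
    exact hlt a ((h2 a).1 ha) b ((g2 b).1 hb)

lemma IsLinExt.setOf_mem {A : Set P} {K : List P} (hK : IsLinExt A K) : {x | x ∈ K} = A := by
  ext x; exact hK.2.1 x

lemma chain_unique (L : List P) : ∀ (L' : List P) (Q : Set P), IsChain (· ≤ ·) Q →
    IsLinExt Q L → IsLinExt Q L' → L = L' := by
  induction L with
  | nil =>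
    intro L' Q _ hL hL'
    have := isLinExt_nil_iff.1 hL
    subst this
    cases L' with
    | nil => rfl
    | cons x l => exact absurd (isLinExt_cons.1 hL').1 (by simp)
  | cons x l ih =>
    intro L' Q hQ hL hL'
    cases L' with
    | nil =>
      have := isLinExt_nil_iff.1 hL'
      subst this
      exact absurd (isLinExt_cons.1 hL).1 (by simp)
    | cons x' l' =>
      obtain ⟨hx, hm, hl⟩ := isLinExt_cons.1 hL
      obtain ⟨hx', hm', hl'⟩ := isLinExt_cons.1 hL'
      have hxx : x = x' := by
        rcases hQ.total hx hx' with h | h
        · rcases h.lt_or_eq with h' | h'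
          · exact absurd h' (hm' x hx)
          · exact h'
        · rcases h.lt_or_eq with h' | h'
          · exact absurd h' (hm x' hx')
          · exact h'.symm
      subst hxx
      rw [ih l' (Q \ {x}) (hQ.mono sdiff_subset) hl hl']

open Classical in
lemma bcount_erase {y : P} (hy : ∀ z, ¬ y ⋖ z) (l : List P) : ∀ Q : Set P,
    bcount Q l = bcount (Q \ {y}) (l.erase y) := by
  have key : ∀ (Q : Set P) (x : P), Closing Q x ↔ Closing (Q \ {y}) x := by
    intro Q x
    constructor
    · exact closing_anti sdiff_subset
    · rintro ⟨u, h1, h2⟩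
      exact ⟨u, h1, fun w hw hwQ => h2 w hw ⟨hwQ, fun h => hy u (mem_singleton_iff.1 h ▸ hw)⟩⟩
  have key2 : ∀ (l : List P) (Q : Set P), bcount Q l = bcount (Q \ {y}) l := by
    intro l
    induction l with
    | nil => intro Q; simp [bcount]
    | cons x l ih =>
      intro Q
      simp only [bcount]
      rw [ih (Q \ {x}), diff_diff_comm' Q x y]
      simp only [key Q x]
  induction l with
  | nil => intro Q; simp [bcount]
  | cons x l ih =>
    intro Q
    by_cases hxy : x = y
    · subst hxy
      have : ¬ Closing Q x := by
        rintro ⟨u, h1, -⟩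
        exact hy u h1
      simp [bcount, this]
    · rw [List.erase_cons_tail (by simpa using hxy)]
      simp only [bcount]
      rw [ih (Q \ {x}), diff_diff_comm' Q x y]
      simp only [key Q x]

open Classical in
lemma IsLinExt.erase {Q : Set P} {l : List P} (hl : IsLinExt Q l) (y : P) :
    IsLinExt (Q \ {y}) (l.erase y) := by
  obtain ⟨h1, h2, h3⟩ := hl
  refine ⟨h1.erase y, ?_, h3.sublist List.erase_sublist⟩
  intro x
  rw [h1.mem_erase_iff, h2, mem_sdiff, mem_singleton_iff]
  tauto

lemma covBy_of_lt_one (h1 : ∀ x y z : P, x < y → ¬ y < z) {x y : P} (h : x < y) : x ⋖ y :=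
  ⟨h, fun z hz1 hz2 => h1 x z y hz1 hz2⟩

lemma exists_run_of_list [Finite P] (h1 : ∀ x y z : P, x < y → ¬ y < z) (k : ℕ) :
    ∀ (L : List P) (Q : Set P), L.length = k → IsUpperSet Q → IsLinExt Q L → L ≠ [] →
      ∃ n, Run Q n ∧ bcount Q L + n + 1 = Q.ncard := by
  classical
  induction k using Nat.strong_induction_on with
  | _ k ih =>
    intro L Q hk hQ hL hne
    by_cases hch : IsChain (· ≤ ·) Q
    · refine ⟨0, Run.stop hch, ?_⟩
      have hQne : Q.Nonempty := by
        rw [Set.nonempty_iff_ne_empty]
        rintro rfl
        cases L with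
        | nil => exact hne rfl
        | cons x l => exact (isLinExt_cons.1 hL).1
      obtain ⟨L1, g1, g2, -⟩ := run_linExt (Run.stop hch) hQ hQne
      rw [chain_unique L L1 Q hch hL g1]
      exact g2
    · cases L with
      | nil => exact absurd rfl hne
      | cons x l =>
        obtain ⟨hx, hm, hl⟩ := isLinExt_cons.1 hL
        have hQx := isUpperSet_diff_min hQ hm
        by_cases hcl : Closing Q x
        · obtain ⟨y, hxy, hy⟩ := hcl
          have hyQ : y ∈ Q := hQ hxy.le hx
          have hgr : IsGreedyChain Q {x, y} := by
            refine ⟨⟨?_, IsChain.pair hxy.le, ?_⟩, ?_⟩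
            · rintro z (h | h)
              · exact h ▸ hx
              · exact (mem_singleton_iff.1 h) ▸ hyQ
            · rintro a (h | h) z hz hza
              · subst h
                rcases hza.lt_or_eq with h' | h'
                · exact absurd h' (hm z hz)
                · exact Or.inl h'
              · rw [mem_singleton_iff] at h
                subst h
                rcases hza.lt_or_eq with h' | h'
                · exact Or.inl (hy z (covBy_of_lt_one h1 h') hz)
                · exact Or.inr h'
            · rintro C' ⟨g1, g2, g3⟩ hsub c hc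
              have hyC : y ∈ C' := hsub (Or.inr rfl)
              rcases g2.total hc hyC with h | h
              · rcases h.lt_or_eq with h' | h'
                · exact Or.inl (hy c (covBy_of_lt_one h1 h') (g1 hc))
                · exact Or.inr h'
              · rcases h.lt_or_eq with h' | h'
                · exact absurd h' (h1 x y c hxy.lt)
                · exact Or.inr h'.symm
          have hset : Q \ {x, y} = (Q \ {x}) \ {y} := by
            ext z
            simp only [mem_sdiff, mem_insert_iff, mem_singleton_iff]
            tauto
          have hl' := hl.erase y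
          have hne' : l.erase y ≠ [] := by
            intro h
            rw [h] at hl'
            have := isLinExt_nil_iff.1 hl'
            rw [← hset, Set.sdiff_eq_empty] at this
            exact hch (IsChain.mono this (IsChain.pair hxy.le))
          have hyl : y ∈ l := (hl.2.1 y).2 ⟨hyQ, fun h => hxy.ne (mem_singleton_iff.1 h).symm⟩
          have hlen : (l.erase y).length < k := by
            rw [List.length_erase_of_mem hyl, ← hk]
            simp only [List.length_cons]
            omega
          have hup : IsUpperSet ((Q \ {x}) \ {y}) := by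
            rw [← hset]
            exact diff_upper hQ hgr.1.2.2
          obtain ⟨n, hn1, hn2⟩ := ih _ hlen (l.erase y) _ rfl hup hl' hne'
          refine ⟨n + 1, Run.step hch hgr (by rw [hset]; exact hn1), ?_⟩
          have hb : bcount Q (x :: l) = 1 + bcount (Q \ {x}) l := by
            conv_lhs => rw [bcount]
            rw [if_pos ⟨y, hxy, hy⟩]
          rw [hb, bcount_erase (fun z hz => h1 x y z hxy.lt hz.lt) l (Q \ {x})]
          have c1 : (Q \ {x}).ncard + 1 = Q.ncard :=
            Set.ncard_sdiff_singleton_add_one hx (Set.toFinite Q)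
          have c2 : ((Q \ {x}) \ {y}).ncard + 1 = (Q \ {x}).ncard :=
            Set.ncard_sdiff_singleton_add_one ⟨hyQ, fun h => hxy.ne (mem_singleton_iff.1 h).symm⟩
              (Set.toFinite _)
          omega
        · have hgr : IsGreedyChain Q {x} := by
            refine ⟨⟨by simpa using hx, by simp [IsChain], ?_⟩, ?_⟩
            · intro a ha z hz hza
              rw [mem_singleton_iff] at ha ⊢
              subst ha
              rcases hza.lt_or_eq with h' | h'
              · exact absurd h' (hm z hz)
              · exact h'
            · rintro C' ⟨g1, g2, g3⟩ hsub c hc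
              have hxC : x ∈ C' := hsub rfl
              rcases g2.total hc hxC with h | h
              · rcases h.lt_or_eq with h' | h'
                · exact absurd h' (hm c (g1 hc))
                · exact h'
              · rcases h.lt_or_eq with h' | h'
                · exfalso
                  apply hcl
                  refine ⟨c, covBy_of_lt_one h1 h', fun w hw hwQ => ?_⟩
                  have hwC := g3 c hc w hwQ hw.le
                  rcases g2.total hwC hxC with h2 | h2
                  · rcases h2.lt_or_eq with h3 | h3
                    · exact absurd h3 (hm w hwQ)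
                    · exact h3
                  · rcases h2.lt_or_eq with h3 | h3
                    · exact absurd hw.lt (h1 x w c h3)
                    · exact h3.symm
                · exact h'.symm
          have hne' : l ≠ [] := by
            rintro rfl
            have := isLinExt_nil_iff.1 hl
            rw [Set.sdiff_eq_empty] at this
            exact hch (IsChain.mono this (by simp [IsChain]))
          have hlen : l.length < k := by
            rw [← hk]; simp
          obtain ⟨n, hn1, hn2⟩ := ih _ hlen l _ rfl hQx hl hne'
          refine ⟨n + 1, Run.step hch hgr hn1, ?_⟩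
          have hb : bcount Q (x :: l) = bcount (Q \ {x}) l := by
            conv_lhs => rw [bcount]
            rw [if_neg hcl, zero_add]
          rw [hb]
          have c1 : (Q \ {x}).ncard + 1 = Q.ncard :=
            Set.ncard_sdiff_singleton_add_one hx (Set.toFinite Q)
          omega

lemma bconst_univ_of_greedy [Finite P] (h1 : ∀ x y z : P, x < y → ¬ y < z)
    (hg : IsGreedy (univ : Set P)) : BConst (univ : Set P) := by
  intro L L' hL hL'
  cases L with
  | nil =>
    have := isLinExt_nil_iff.1 hL
    cases L' with
    | nil => rfl
    | cons x l =>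
      have hx := (isLinExt_cons.1 hL').1
      rw [this] at hx
      exact absurd hx (by simp)
  | cons x l =>
    cases L' with
    | nil =>
      have := isLinExt_nil_iff.1 hL'
      have hx := (isLinExt_cons.1 hL).1
      rw [this] at hx
      exact absurd hx (by simp)
    | cons x' l' =>
      obtain ⟨n, a1, a2⟩ := exists_run_of_list h1 _ _ _ rfl isUpperSet_univ hL (by simp)
      obtain ⟨n', b1, b2⟩ := exists_run_of_list h1 _ _ _ rfl isUpperSet_univ hL' (by simp)
      have := hg n a1
      have := hg n' b1
      omega

lemma bcount_prefix_eq [Finite P] (hb : BConst (univ : Set P)) {A : Set P} (hA : IsLowerSet A)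
    {K K' : List P} (hK : IsLinExt A K) (hK' : IsLinExt A K') :
    bcount univ K = bcount univ K' := by
  obtain ⟨m, hm⟩ := exists_linExt (Aᶜ : Set P)
  have hlt : ∀ a ∈ A, ∀ b ∈ Aᶜ, ¬ b < a := fun a ha b hb h => hb (hA h.le ha)
  have e1 := hK.append hm disjoint_compl_right hlt
  have e2 := hK'.append hm disjoint_compl_right hlt
  rw [union_compl_self] at e1 e2
  have h := hb _ _ e1 e2
  rw [bcount_append, bcount_append, hK.setOf_mem, hK'.setOf_mem] at h
  omega

lemma bconst_of_univ [Finite P] (hb : BConst (univ : Set P)) {Q : Set P} (hQ : IsUpperSet Q) :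
    BConst Q := by
  intro L L' hL hL'
  obtain ⟨K, hK⟩ := exists_linExt (Qᶜ : Set P)
  have hlt : ∀ a ∈ Qᶜ, ∀ b ∈ Q, ¬ b < a := fun a ha b hb h => ha (hQ h.le hb)
  have e1 := hK.append hL disjoint_compl_left hlt
  have e2 := hK.append hL' disjoint_compl_left hlt
  rw [compl_union_self] at e1 e2
  have h := hb _ _ e1 e2
  rw [bcount_append, bcount_append, hK.setOf_mem] at h
  have h3 : (univ : Set P) \ Qᶜ = Q := by
    ext; simp
  rw [h3] at h
  omega

end Pool.Agent.Work.MP_02c6ed_co
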