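import Pool.Agent.Work.MP_02c6ed_co.Defs
import Pool.Prelude.Def_H_3587d628

/-!
# The recognition problem of greedy posets as a decision problem on bit strings
-/

set_option autoImplicit false

namespace Pool.Agent.Work.MP_02c6ed_co

open Classical in
/-- The matrix of the order relation of a poset on `{0, ..., n - 1}`. -/
noncomputable def orderMatrix {n : ℕ} (P : PartialOrder (Fin n)) : List (List Bool) :=
  List.ofFn fun i => List.ofFn fun j => decide (P.le i j)

/-- The code of a poset on `{0, ..., n - 1}`: the bit encoding of the matrix of its order. -/
noncomputable def posetCode {n : ℕ} (P : PartialOrder (Fin n)) : List Bool :=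
  N487b59b3.bitEncode (orderMatrix P)

open Classical in
/-- The decision problem whether a bit string is the code of a finite greedy poset. -/
noncomputable def GreedyRecognition : N68a2faeb.DecisionProblem := fun x =>
  decide (∃ (n : ℕ) (P : PartialOrder (Fin n)), posetCode P = x ∧
    @IsGreedy (Fin n) P Set.univ)

end Pool.Agent.Work.MP_02c6ed_co
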