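import Pool.Agent.Work.MP_02c6ed_co.Cert
import Pool.Agent.Work.MP_02c6ed_co.Lang
import Pool.Agent.Work.PT.BitEnc
import Pool.Agent.Work.PT.CookLevin

/-!
# The poset of a formula, numbered, and its code computed in polynomial time
-/

set_option autoImplicit false

namespace Pool.Agent.Work.MP_02c6ed_co

open SatPoset Pool.Agent.PT N487b59b3

/-! ### Formulas -/

/-- Formulas in conjunctive normal form as lists of clauses. -/
abbrev CnfL := List (List (Bool × ℕ))

/-- Add a tautological clause. -/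
def padF (φ : CnfL) : CnfL := [(true, 0), (false, 0)] :: φ

/-- A number larger than all variables. -/
def nv (φ : CnfL) : ℕ := (φ.flatten.map (fun l => l.2 + 1)).sum

theorem lt_nv {φ : CnfL} {c : List (Bool × ℕ)} (hc : c ∈ φ) {l : Bool × ℕ} (hl : l ∈ c) :
    l.2 < nv φ := by
  have h1 : l.2 + 1 ∈ φ.flatten.map (fun l => l.2 + 1) :=
    List.mem_map.2 ⟨l, List.mem_flatten.2 ⟨c, hc, hl⟩, rfl⟩
  have h2 := List.single_le_sum (fun x _ => Nat.zero_le x) _ h1
  unfold nv
  omega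

/-- The clauses as sets of literals. -/
def cls (ψ : CnfL) : Fin ψ.length → Set (Fin (nv ψ) × Bool) :=
  fun k => {l | (l.2, (l.1 : ℕ)) ∈ ψ.getD k []}

theorem sat_iff (φ : CnfL) :
    (∃ τ : Fin (nv (padF φ)) → Bool, ∀ k, ∃ l ∈ cls (padF φ) k, τ l.1 = l.2) ↔ Satisf φ := by
  constructor
  · rintro ⟨τ, hτ⟩
    refine ⟨fun x => if h : x < nv (padF φ) then τ ⟨x, h⟩ else false, fun c hc => ?_⟩
    obtain ⟨i, hi, rfl⟩ := List.mem_iff_getElem.1 hc
    obtain ⟨l, hl, h1⟩ := hτ ⟨i + 1, by simpa [padF] using hi⟩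
    have hl' : (l.2, (l.1 : ℕ)) ∈ φ[i] := by
      have : (padF φ).getD (i + 1) [] = φ[i] := by
        simp [padF, List.getD_eq_getElem?_getD, hi]
      rw [← this]
      exact hl
    refine ⟨_, hl', ?_⟩
    simp only [Fin.is_lt, dif_pos, Fin.eta]
    exact h1
  · rintro ⟨v, hv⟩
    refine ⟨fun x => v x, fun k => ?_⟩
    have h1 : SatBy v (padF φ) := by
      intro c hc
      rcases List.mem_cons.1 hc with rfl | hc
      · cases h : v 0
        · exact ⟨(false, 0), by simp, h⟩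
        · exact ⟨(true, 0), by simp, h⟩
      · exact hv c hc
    have hk : (padF φ).getD k [] = (padF φ)[k] := by
      simp [List.getD_eq_getElem?_getD]
    obtain ⟨l, hl, h2⟩ := h1 ((padF φ)[k]) (List.getElem_mem _)
    refine ⟨(⟨l.2, lt_nv (List.getElem_mem k.2) hl⟩, l.1), ?_, h2⟩
    show (l.1, l.2) ∈ (padF φ).getD k []
    rw [hk]
    exact hl

/-! ### Numbering -/

/-- Codes of elements. -/
abbrev T4 := ℕ × ℕ × ℕ × ℕ

theorem toNat_eq {s s' : Bool} : s.toNat = s'.toNat ↔ s = s' := by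
  cases s <;> cases s' <;> simp

theorem toNat_eq_one {s : Bool} : s.toNat = 1 ↔ s = true := by cases s <;> simp

section numbering

variable {N M : ℕ} {T : Fin M × Bool → Set ((Fin N × Bool) × Bool)}

/-- The code of an element. -/
def tup : SatPoset T → T4
  | z v => (0, v.1, v.2.toNat, 0)
  | lit v s => (1, v.1, v.2.toNat, s.toNat)
  | top v s => (2, v.1, v.2.toNat, s.toNat)
  | a => (3, 0, 0, 0)
  | w k => (4, k.1, k.2.toNat, 0)

theorem tup_inj : Function.Injective (tup : SatPoset T → T4) := by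
  intro u v h
  rcases u with ⟨i, b⟩ | ⟨⟨i, b⟩, s⟩ | ⟨⟨i, b⟩, s⟩ | _ | ⟨i, b⟩ <;>
    rcases v with ⟨j, c⟩ | ⟨⟨j, c⟩, t⟩ | ⟨⟨j, c⟩, t⟩ | _ | ⟨j, c⟩ <;>
    simp only [tup, Prod.mk.injEq, toNat_eq, OfNat.ofNat_ne_zero, OfNat.ofNat_ne_one,
      OfNat.zero_ne_ofNat, OfNat.one_ne_ofNat, zero_ne_one, one_ne_zero, false_and, true_and,
      and_true, Fin.val_inj, OfNat.ofNat_eq_ofNat, Nat.reduceEqDiff] at h
  · rw [h.1, h.2]
  · rw [h.1, h.2.1, h.2.2]
  · rw [h.1, h.2.1, h.2.2]
  · rfl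
  · rw [h.1, h.2]

/-- The number of an element. -/
def cd : SatPoset T → ℕ
  | z v => 10 * v.1 + 5 * v.2.toNat
  | lit v s => 10 * v.1 + 5 * v.2.toNat + 1 + s.toNat
  | top v s => 10 * v.1 + 5 * v.2.toNat + 3 + s.toNat
  | a => 10 * N
  | w k => 10 * N + 1 + 2 * k.1 + k.2.toNat

/-- The code of the element with a given number. -/
def dec (N m : ℕ) : T4 :=
  if m < 10 * N then
    if m % 5 = 0 then (0, m / 10, m / 5 % 2, 0)
    else if m % 5 < 3 then (1, m / 10, m / 5 % 2, m % 5 - 1)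
    else (2, m / 10, m / 5 % 2, m % 5 - 3)
  else if m = 10 * N then (3, 0, 0, 0)
  else (4, (m - 10 * N - 1) / 2, (m - 10 * N - 1) % 2, 0)

theorem cd_lt (u : SatPoset T) : cd u < 10 * N + 2 * M + 1 := by
  rcases u with ⟨i, _ | _⟩ | ⟨⟨i, _ | _⟩, _ | _⟩ | ⟨⟨i, _ | _⟩, _ | _⟩ | _ | ⟨i, _ | _⟩ <;>
    simp only [cd, Bool.toNat_false, Bool.toNat_true] <;> omega

theorem dec_cd (u : SatPoset T) : dec N (cd u) = tup u := by
  rcases u with ⟨i, b⟩ | ⟨⟨i, b⟩, s⟩ | ⟨⟨i, b⟩, s⟩ | _ | ⟨i, b⟩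
  · have hb : b.toNat < 2 := by cases b <;> simp
    simp only [cd, tup, dec]
    generalize b.toNat = b' at *
    have := i.2
    rw [if_pos (by omega), if_pos (by omega)]
    refine Prod.ext rfl (Prod.ext ?_ (Prod.ext ?_ rfl)) <;> dsimp only <;> omega
  · have hb : b.toNat < 2 := by cases b <;> simp
    have hs : s.toNat < 2 := by cases s <;> simp
    simp only [cd, tup, dec]
    generalize b.toNat = b' at *
    generalize s.toNat = s' at *
    have := i.2
    rw [if_pos (by omega), if_neg (by omega), if_pos (by omega)]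
    refine Prod.ext rfl (Prod.ext ?_ (Prod.ext ?_ ?_)) <;> dsimp only <;> omega
  · have hb : b.toNat < 2 := by cases b <;> simp
    have hs : s.toNat < 2 := by cases s <;> simp
    simp only [cd, tup, dec]
    generalize b.toNat = b' at *
    generalize s.toNat = s' at *
    have := i.2
    rw [if_pos (by omega), if_neg (by omega), if_neg (by omega)]
    refine Prod.ext rfl (Prod.ext ?_ (Prod.ext ?_ ?_)) <;> dsimp only <;> omega
  · simp only [cd, tup, dec]
    rw [if_neg (by omega), if_pos trivial]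
  · have hb : b.toNat < 2 := by cases b <;> simp
    simp only [cd, tup, dec]
    generalize b.toNat = b' at *
    rw [if_neg (by omega), if_neg (by omega)]
    refine Prod.ext rfl (Prod.ext ?_ (Prod.ext ?_ rfl)) <;> dsimp only <;> omega

theorem cd_inj : Function.Injective (cd : SatPoset T → ℕ) := fun u v h =>
  tup_inj (by rw [← dec_cd, ← dec_cd, h])

/-- The elements are the numbers below `10 * N + 2 * M + 1`. -/
noncomputable def eqv (T : Fin M × Bool → Set ((Fin N × Bool) × Bool)) :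
    SatPoset T ≃ Fin (10 * N + 2 * M + 1) :=
  Equiv.ofBijective (fun u => ⟨cd u, cd_lt u⟩) (by
    have h1 : Function.Injective (fun u : SatPoset T =>
        (⟨cd u, cd_lt u⟩ : Fin (10 * N + 2 * M + 1))) :=
      fun u v h => cd_inj (Fin.mk.inj h)
    have h2 : Nat.card (SatPoset T) = 10 * N + 2 * M + 1 := by
      rw [card_eq, Nat.card_prod, Nat.card_prod]
      simp only [Nat.card_eq_fintype_card, Fintype.card_fin, Fintype.card_bool]
      ring
    haveI : Finite (SatPoset T) := Nat.finite_of_card_ne_zero (by omega)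
    refine ⟨h1, ?_⟩
    haveI := Fintype.ofFinite (SatPoset T)
    refine ((Fintype.bijective_iff_injective_and_card _).2 ⟨h1, ?_⟩).2
    rw [← Nat.card_eq_fintype_card, h2, Fintype.card_fin])

theorem dec_eqv (u : SatPoset T) : dec N (eqv T u : ℕ) = tup u := dec_cd u

end numbering

/-! ### The order in terms of codes -/

/-- The order relation in terms of codes. -/
def leT (ψ : CnfL) (s t : T4) : Bool :=
  decide (s = t ∨
    (s.1 = 0 ∧ t.1 = 1 ∧ s.2.1 = t.2.1 ∧ s.2.2.1 = t.2.2.1) ∨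
    (s.1 = 0 ∧ t.1 = 2 ∧ s.2.1 = t.2.1 ∧ s.2.2.1 = t.2.2.1) ∨
    (s.1 = 0 ∧ t.1 = 3) ∨ (s.1 = 0 ∧ t.1 = 4) ∨
    (s.1 = 1 ∧ t.1 = 2 ∧ s.2 = t.2) ∨
    (s.1 = 1 ∧ t.1 = 4 ∧ s.2.2.1 = t.2.2.1 ∧
      (ψ.getD t.2.1 []).any (fun l => decide (l = (decide (s.2.2.2 = 1), s.2.1))) = true) ∨
    (s.1 = 3 ∧ t.1 = 4))

theorem leT_iff (ψ : CnfL) (u v : SatPoset (dbl (cls ψ))) :
    leT ψ (tup u) (tup v) = true ↔ u ≤ v := by
  unfold leT
  rw [decide_eq_true_iff, le_def]
  rcases u with ⟨i, b⟩ | ⟨⟨i, b⟩, s⟩ | ⟨⟨i, b⟩, s⟩ | _ | ⟨i, b⟩ <;>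
    rcases v with ⟨j, c⟩ | ⟨⟨j, c⟩, t⟩ | ⟨⟨j, c⟩, t⟩ | _ | ⟨j, c⟩ <;>
    simp [tup, Le, toNat_eq, Fin.ext_iff, dbl, cls, and_assoc]

/-- The poset of a formula, on numbers. -/
noncomputable def instP (ψ : CnfL) : PartialOrder (Fin (10 * nv ψ + 2 * ψ.length + 1)) :=
  PartialOrder.lift (eqv (dbl (cls ψ))).symm (eqv (dbl (cls ψ))).symm.injective

theorem instP_le (ψ : CnfL) (i j : Fin (10 * nv ψ + 2 * ψ.length + 1)) :
    (instP ψ).le i j ↔ leT ψ (dec (nv ψ) i) (dec (nv ψ) j) = true := by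
  obtain ⟨u, rfl⟩ := (eqv (dbl (cls ψ))).surjective i
  obtain ⟨v, rfl⟩ := (eqv (dbl (cls ψ))).surjective j
  rw [dec_eqv, dec_eqv, leT_iff]
  show (eqv (dbl (cls ψ))).symm _ ≤ (eqv (dbl (cls ψ))).symm _ ↔ _
  rw [Equiv.symm_apply_apply, Equiv.symm_apply_apply]

theorem instP_greedy (ψ : CnfL) : @IsGreedy _ (instP ψ) Set.univ ↔
    IsGreedy (Set.univ : Set (SatPoset (dbl (cls ψ)))) := by
  letI := instP ψ
  haveI : Finite (SatPoset (dbl (cls ψ))) := Finite.of_equiv _ (eqv (dbl (cls ψ))).symm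
  refine isGreedy_congr
    { toEquiv := (eqv (dbl (cls ψ))).symm
      map_rel_iff' := ?_ }
  intro i j
  exact Iff.rfl

theorem instP_no_four (ψ : CnfL) (i j k l : Fin (10 * nv ψ + 2 * ψ.length + 1))
    (h1 : (instP ψ).lt i j) (h2 : (instP ψ).lt j k) : ¬ (instP ψ).lt k l :=
  no_four (T := dbl (cls ψ)) ((eqv _).symm i) ((eqv _).symm j) ((eqv _).symm k)
    ((eqv _).symm l) h1 h2

theorem greedy_iff (φ : CnfL) : @IsGreedy _ (instP (padF φ)) Set.univ ↔ ¬ Satisf φ := by
  haveI : Nonempty (Fin (padF φ).length) := ⟨⟨0, by simp [padF]⟩⟩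
  rw [instP_greedy, greedy_iff_unsat, sat_iff]

/-! ### The code -/

theorem orderMatrix_inj {n : ℕ} {P P' : PartialOrder (Fin n)}
    (h : orderMatrix P = orderMatrix P') : P = P' := by
  classical
  refine PartialOrder.ext fun i j => ?_
  have h1 := congrFun (List.ofFn_injective (congrFun (List.ofFn_injective h) i)) j
  rwa [decide_eq_decide] at h1

theorem posetCode_inj {n n' : ℕ} {P : PartialOrder (Fin n)} {P' : PartialOrder (Fin n')}
    (h : posetCode P = posetCode P') : ∃ e : n = n', e ▸ P = P' := by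
  have h1 : orderMatrix P = orderMatrix P' := bitEncode_injective h
  have hn : n = n' := by simpa [orderMatrix] using congrArg List.length h1
  subst hn
  exact ⟨rfl, orderMatrix_inj h1⟩

theorem greedyRecognition_code {n : ℕ} (P : PartialOrder (Fin n)) :
    GreedyRecognition (posetCode P) = true ↔ @IsGreedy (Fin n) P Set.univ := by
  classical
  simp only [GreedyRecognition, decide_eq_true_eq]
  constructor
  · rintro ⟨n', P', h, h1⟩
    obtain ⟨e, h2⟩ := posetCode_inj h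
    subst e
    rw [← h2]
    exact h1
  · intro h
    exact ⟨n, P, rfl, h⟩

theorem ofFn_range {α : Type} {n : ℕ} (f : ℕ → α) :
    List.ofFn (fun i : Fin n => f i) = (List.range n).map f := by
  refine List.ext_getElem (by simp) fun i h1 h2 => ?_
  simp

theorem orderMatrix_eq {n : ℕ} (f : ℕ → ℕ → Bool) (P : PartialOrder (Fin n))
    (hP : ∀ i j : Fin n, P.le i j ↔ f i j = true) :
    orderMatrix P = (List.range n).map (fun a => (List.range n).map (fun b => f a b)) := by
  classical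
  unfold orderMatrix
  rw [← ofFn_range (n := n) (fun a => (List.range n).map (fun b => f a b))]
  congr 1
  funext i
  rw [← ofFn_range (n := n) (fun b => f i b)]
  congr 1
  funext j
  rw [Bool.eq_iff_iff, decide_eq_true_iff]
  exact hP i j

/-- The matrix of the poset of a formula. -/
def raw (ψ : CnfL) : List (List Bool) :=
  (List.range (10 * nv ψ + 2 * ψ.length + 1)).map (fun a =>
    (List.range (10 * nv ψ + 2 * ψ.length + 1)).map (fun b =>
      leT ψ (dec (nv ψ) a) (dec (nv ψ) b)))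

theorem code_instP (ψ : CnfL) : posetCode (instP ψ) = bitEncode (raw ψ) := by
  unfold posetCode raw
  rw [orderMatrix_eq (fun a b => leT ψ (dec (nv ψ) a) (dec (nv ψ) b)) (instP ψ)
    fun i j => instP_le ψ i j]

section ptf

variable {α : Type} [Enc α]

@[fun_prop]
theorem ptf_padF {φ : α → CnfL} (h : PTF φ) : PTF (fun a => padF (φ a)) := by
  unfold padF
  fun_prop

@[fun_prop]
theorem ptf_nv {φ : α → CnfL} (h : PTF φ) : PTF (fun a => nv (φ a)) := by
  unfold nv
  fun_prop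

@[fun_prop]
theorem ptf_dec {N m : α → ℕ} (hN : PTF N) (hm : PTF m) : PTF (fun a => dec (N a) (m a)) := by
  unfold dec
  fun_prop

@[fun_prop]
theorem ptf_leT {φ : α → CnfL} {s t : α → T4} (h : PTF φ) (hs : PTF s) (ht : PTF t) :
    PTF (fun a => leT (φ a) (s a) (t a)) := by
  unfold leT
  fun_prop

theorem ptf_raw {φ : α → CnfL} (h : PTF φ) : PTF (fun a => raw (φ a)) := by
  unfold raw
  fun_prop

theorem ptf_code {φ : α → CnfL} (h : PTF φ) : PTF (fun a => posetCode (instP (padF (φ a)))) := by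
  have h1 : PTF (fun a => bitEncode (raw (padF (φ a)))) :=
    (EncP.list (EncP.list EncP.bool)).apply (ptf_raw (ptf_padF h))
  exact h1.congr fun a => (code_instP (padF (φ a))).symm

end ptf

/-- Hardness. -/
theorem hard {L : List Bool → Bool} (h : L ∈ N68a2faeb.coNP) :
    ∃ f : List Bool → List Bool, N68a2faeb.IsPolyTime f ∧
      ∀ x, (L x = true ↔ GreedyRecognition (f x) = true) ∧
        ∃ (n : ℕ) (P : PartialOrder (Fin n)), posetCode P = f x ∧
          ∀ i j k l : Fin n, P.lt i j → P.lt j k → ¬ P.lt k l := by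
  obtain ⟨g, hg, h1⟩ := cookLevin (L := Lᶜ) h
  refine ⟨fun x => posetCode (instP (padF (g x))),
    (ptf_code hg).isPolyTime (EncP.list EncP.bool), fun x => ⟨?_, _, _, rfl,
      instP_no_four _⟩⟩
  rw [greedyRecognition_code, greedy_iff, ← h1]
  simp

end Pool.Agent.Work.MP_02c6ed_co
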