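import Pool.Agent.Work.MP_02c6ed_co.Hard

/-!
Unsatisfiability of CNF formulas reduces to greediness of posets of height two.
-/

set_option autoImplicit false

namespace Pool.Agent.Work.MP_02c6ed_co.UnsatReduction

open Pool.Agent.Work.MP_02c6ed_co

/-- For every CNF formula `T` with finitely many variables `V` and a nonempty finite set of
clauses `K`, the explicit poset `SatPoset (dbl T)` has `10 |V| + 2 |K| + 1` elements and no
four-element chain, and it is greedy if and only if the formula is unsatisfiable. -/
theorem result {V K : Type} [Finite V] [Finite K] [Nonempty K] (T : K → Set (V × Bool)) :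
    Nat.card (SatPoset (dbl T)) = 10 * Nat.card V + 2 * Nat.card K + 1 ∧
      (∀ x y z t : SatPoset (dbl T), x < y → y < z → ¬ z < t) ∧
      (IsGreedy (Set.univ : Set (SatPoset (dbl T))) ↔
        ¬ ∃ τ : V → Bool, ∀ k, ∃ l ∈ T k, τ l.1 = l.2) := by
  refine ⟨?_, SatPoset.no_four, SatPoset.greedy_iff_unsat T⟩
  rw [SatPoset.card_eq, Nat.card_prod, Nat.card_prod, Nat.card_eq_fintype_card (α := Bool),
    Fintype.card_bool]
  ring

end Pool.Agent.Work.MP_02c6ed_co.UnsatReduction
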