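import Pool.Agent.Work.MP_02c6ed_co.Num

/-!
# Recognition of greedy posets is in coNP
-/

set_option autoImplicit false

namespace Pool.Agent.Work.MP_02c6ed_co

open Pool.Agent.PT N487b59b3 Pool.Agent.Work.MP_46935e_lc

/-! ### Positions in the code of a matrix -/

theorem count_lt (N n : ℕ) :
    ((List.range N).filter (fun m => decide (m < n))).length = min n N := by
  induction N with
  | zero => simp
  | succ N ih =>
    rw [List.range_succ, List.filter_append, List.length_append, ih]
    by_cases h : N < n
    · simp [List.filter_cons, h]; omega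
    · simp [List.filter_cons, h]; omega

theorem length_flatten_const {α : Type} {L : ℕ} (l : List (List α))
    (hl : ∀ b ∈ l, b.length = L) : l.flatten.length = l.length * L := by
  induction l with
  | nil => simp
  | cons b l ih =>
    rw [List.flatten_cons, List.length_append, ih fun c hc => hl c (by simp [hc]),
      hl b (by simp), List.length_cons]
    ring

theorem flatten_getD {α : Type} {L : ℕ} (l : List (List α)) (hl : ∀ b ∈ l, b.length = L)
    (i r : ℕ) (hi : i < l.length) (hr : r < L) (d : α) :
    l.flatten.getD (i * L + r) d = (l.getD i []).getD r d := by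
  induction l generalizing i with
  | nil => simp at hi
  | cons b l ih =>
    have hb : b.length = L := hl b (by simp)
    rw [List.flatten_cons]
    rcases i with _ | i
    · rw [List.getD_append _ _ _ _ (by omega)]
      simp
    · rw [List.getD_append_right _ _ _ _ (by rw [Nat.succ_mul]; omega)]
      have e : (i + 1) * L + r - b.length = i * L + r := by rw [Nat.succ_mul]; omega
      rw [e, ih (fun c hc => hl c (by simp [hc])) i (by simpa using hi)]
      simp

theorem delimit_getD (u : List Bool) (k : ℕ) (hk : k < u.length) :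
    (delimit u).getD (2 * k + 1) false = u.getD k false := by
  induction u generalizing k with
  | nil => simp at hk
  | cons b u ih =>
    rcases k with _ | k
    · rfl
    · have e : 2 * (k + 1) + 1 = (2 * k + 1) + 1 + 1 := by ring
      rw [e]
      show (delimit u).getD (2 * k + 1) false = u.getD k false
      exact ih k (by simpa using hk)

theorem bitEncode_mat (A : List (List Bool)) :
    bitEncode A = (A.map (fun row => delimit (bitEncode row))).flatten := by
  show ((A.map bitEncode).map delimit).flatten = _
  rw [List.map_map]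
  rfl

theorem length_block {n : ℕ} {A : List (List Bool)} (hA : ∀ row ∈ A, row.length = n) :
    ∀ b ∈ A.map (fun row => delimit (bitEncode row)), b.length = 6 * n + 1 := by
  intro b hb
  obtain ⟨row, hrow, rfl⟩ := List.mem_map.1 hb
  rw [length_delimit, length_bitEncode_bits, hA row hrow]
  ring

theorem length_mat {n : ℕ} {A : List (List Bool)} (hn : A.length = n)
    (hA : ∀ row ∈ A, row.length = n) : (bitEncode A).length = n * (6 * n + 1) := by
  rw [bitEncode_mat, length_flatten_const _ (length_block hA), List.length_map, hn]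

theorem getD_mat {n : ℕ} {A : List (List Bool)} (hn : A.length = n)
    (hA : ∀ row ∈ A, row.length = n) {i j : ℕ} (hi : i < n) (hj : j < n) :
    (bitEncode A).getD (i * (6 * n + 1) + (6 * j + 3)) false = (A.getD i []).getD j false := by
  rw [bitEncode_mat, flatten_getD _ (length_block hA) _ _ (by simpa [hn] using hi) (by omega)]
  have h1 : (A.map (fun row => delimit (bitEncode row))).getD i [] =
      delimit (bitEncode (A.getD i [])) := by
    have h2 : i < A.length := by omega
    simp [List.getD_eq_getElem?_getD, h2]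
  have h2 : (A.getD i []).length = n := by
    refine hA _ ?_
    rw [List.getD_eq_getElem _ _ (by omega : i < A.length)]
    exact List.getElem_mem _
  have h3 : (bitEncode (A.getD i [])).length = 3 * n := by rw [length_bitEncode_bits, h2]
  rw [h1]
  have e : 6 * j + 3 = 2 * (3 * j + 1) + 1 := by ring
  rw [e, delimit_getD _ _ (by omega), bitEncode_bits, getD_bits]

/-! ### Decoding -/

/-- The number of elements. -/
def dim (x : List Bool) : ℕ :=
  ((List.range x.length).filter (fun m => decide (m * (6 * m + 1) < x.length))).length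

/-- The entries of the matrix. -/
def ent (x : List Bool) (i j : ℕ) : Bool := x.getD (i * (6 * dim x + 1) + (6 * j + 3)) false

/-- The matrix. -/
def mat (x : List Bool) : List (List Bool) :=
  (List.range (dim x)).map (fun i => (List.range (dim x)).map (fun j => ent x i j))

theorem dim_eq {x : List Bool} {n : ℕ} (h : x.length = n * (6 * n + 1)) : dim x = n := by
  unfold dim
  have h1 : ∀ m : ℕ, m * (6 * m + 1) < x.length ↔ m < n := by
    intro m
    rw [h]
    constructor
    · intro h2
      by_contra h3
      push Not at h3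
      have := Nat.mul_le_mul h3 (show 6 * n + 1 ≤ 6 * m + 1 by omega)
      omega
    · intro h2
      exact Nat.mul_lt_mul'' h2 (by omega)
  simp only [h1]
  rw [count_lt]
  have : n * 1 ≤ n * (6 * n + 1) := Nat.mul_le_mul_left n (by omega)
  omega

theorem row_length {n : ℕ} (P : PartialOrder (Fin n)) :
    ∀ row ∈ orderMatrix P, row.length = n := by
  intro row hrow
  unfold orderMatrix at hrow
  rw [List.mem_ofFn] at hrow
  obtain ⟨i, rfl⟩ := hrow
  simp

theorem length_orderMatrix {n : ℕ} (P : PartialOrder (Fin n)) : (orderMatrix P).length = n := by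
  simp [orderMatrix]

theorem dim_code {n : ℕ} (P : PartialOrder (Fin n)) : dim (posetCode P) = n :=
  dim_eq (length_mat (length_orderMatrix P) (row_length P))

theorem ent_code {n : ℕ} (P : PartialOrder (Fin n)) (i j : Fin n) :
    ent (posetCode P) i j = true ↔ P.le i j := by
  classical
  unfold ent
  rw [dim_code]
  unfold posetCode
  rw [getD_mat (length_orderMatrix P) (row_length P) i.2 j.2]
  simp [orderMatrix, List.getD_eq_getElem?_getD]

theorem mat_code {n : ℕ} (P : PartialOrder (Fin n)) : mat (posetCode P) = orderMatrix P := by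
  unfold mat
  rw [dim_code, orderMatrix_eq (fun i j => ent (posetCode P) i j) P
    fun i j => (ent_code P i j).symm]

/-- Test for codes of posets. -/
def valid (x : List Bool) : Bool :=
  decide (bitEncode (mat x) = x) &&
  ((List.range (dim x)).all (fun i => ent x i i) &&
  ((List.range (dim x)).all (fun i => (List.range (dim x)).all (fun j =>
    decide (ent x i j = true → ent x j i = true → i = j))) &&
  (List.range (dim x)).all (fun i => (List.range (dim x)).all (fun j =>
    (List.range (dim x)).all (fun k =>
      decide (ent x i j = true → ent x j k = true → ent x i k = true))))))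

theorem valid_iff (x : List Bool) :
    valid x = true ↔ ∃ (n : ℕ) (P : PartialOrder (Fin n)), posetCode P = x := by
  unfold valid
  simp only [Bool.and_eq_true, decide_eq_true_eq, List.all_eq_true, List.mem_range]
  constructor
  · rintro ⟨h1, h2, h3, h4⟩
    let P : PartialOrder (Fin (dim x)) :=
      { le := fun i j => ent x i j = true
        lt := fun i j => ent x i j = true ∧ ¬ ent x j i = true
        lt_iff_le_not_ge := fun _ _ => Iff.rfl
        le_refl := fun i => h2 i i.2
        le_trans := fun i j k hij hjk => h4 i i.2 j j.2 k k.2 hij hjk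
        le_antisymm := fun i j hij hji => Fin.ext (h3 i i.2 j j.2 hij hji) }
    refine ⟨dim x, P, ?_⟩
    unfold posetCode
    rw [orderMatrix_eq (fun i j => ent x i j) P fun i j => Iff.rfl]
    exact h1
  · rintro ⟨n, P, rfl⟩
    rw [mat_code, dim_code]
    refine ⟨rfl, fun i hi => ?_, fun i hi j hj h1 h2 => ?_, fun i hi j hj k hk h1 h2 => ?_⟩
    · exact (ent_code P ⟨i, hi⟩ ⟨i, hi⟩).2 (P.le_refl _)
    · exact Fin.mk.inj (P.le_antisymm _ _ ((ent_code P ⟨i, hi⟩ ⟨j, hj⟩).1 h1)
        ((ent_code P ⟨j, hj⟩ ⟨i, hi⟩).1 h2))
    · exact (ent_code P ⟨i, hi⟩ ⟨k, hk⟩).2 (P.le_trans _ _ _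
        ((ent_code P ⟨i, hi⟩ ⟨j, hj⟩).1 h1) ((ent_code P ⟨j, hj⟩ ⟨k, hk⟩).1 h2))

/-! ### Certificates -/

/-- The value number `i` in a table of numbers at most `n`. -/
def lev (n : ℕ) (w : List Bool) (i : ℕ) : ℕ :=
  ((List.range n).filter (fun j => w.getD (i * n + j) false)).length

theorem exists_table (n m : ℕ) (f : ℕ → ℕ) (hf : ∀ i < m, f i ≤ n) :
    ∃ w : List Bool, w.length = m * n ∧ ∀ i < m, lev n w i = f i := by
  refine ⟨(List.range (m * n)).map (fun k => decide (k % n < f (k / n))), by simp,
    fun i hi => ?_⟩
  have h1 : ∀ j ∈ List.range n,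
      ((List.range (m * n)).map (fun k => decide (k % n < f (k / n)))).getD (i * n + j) false =
        decide (j < f i) := by
    intro j hj
    rw [List.mem_range] at hj
    have h2 : i * n + j < m * n := by
      have := Nat.mul_le_mul_right n (show i + 1 ≤ m from hi)
      rw [Nat.succ_mul] at this
      omega
    have h3 : (i * n + j) % n = j := by
      rw [Nat.add_comm, Nat.add_mul_mod_self_right, Nat.mod_eq_of_lt hj]
    have h4 : (i * n + j) / n = i := by
      rw [Nat.add_comm, Nat.add_mul_div_right _ _ (by omega), Nat.div_eq_of_lt hj, Nat.zero_add]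
    rw [List.getD_eq_getElem _ _ (by simpa using h2), List.getElem_map, List.getElem_range, h3,
      h4]
  unfold lev
  rw [List.filter_congr h1, count_lt]
  have := hf i hi
  omega

/-- Test for the properties of `Lv`. -/
def okc (x w : List Bool) (o : ℕ) : Bool :=
  ((List.range (dim x)).all (fun i => (List.range (lev (dim x) w (o + i))).all (fun t =>
    (List.range (dim x)).any (fun j => decide (lev (dim x) w (o + j) = t))))) &&
  ((List.range (dim x)).all (fun i => (List.range (dim x)).all (fun j =>
    decide (lev (dim x) w (o + i) = lev (dim x) w (o + j) →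
      (ent x i j = true ∨ ent x j i = true)))) &&
  ((List.range (dim x)).all (fun i => (List.range (dim x)).all (fun j =>
    decide (ent x j i = true → lev (dim x) w (o + j) ≤ lev (dim x) w (o + i)))) &&
  (List.range (dim x)).all (fun i => (List.range (dim x)).all (fun j =>
    (!decide (lev (dim x) w (o + i) < lev (dim x) w (o + j))) ||
      (List.range (dim x)).any (fun u =>
        decide ((lev (dim x) w (o + u) = lev (dim x) w (o + i) ∧ ¬ ent x u j = true) ∨
          (lev (dim x) w (o + i) < lev (dim x) w (o + u) ∧ ent x u j = true ∧ u ≠ j)))))))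

theorem okc_iff {x w : List Bool} {o n : ℕ} (hn : dim x = n) {r : Fin n → Fin n → Prop}
    (hr : ∀ i j : Fin n, ent x i j = true ↔ r i j) {c : Fin n → ℕ}
    (hc : ∀ i : Fin n, lev n w (o + i) = c i) :
    okc x w o = true ↔ Lv r Set.univ c := by
  unfold okc
  rw [hn]
  simp only [Bool.and_eq_true, Bool.or_eq_true, Bool.not_eq_true', decide_eq_true_eq,
    decide_eq_false_iff_not, List.all_eq_true, List.any_eq_true, List.mem_range]
  constructor
  · rintro ⟨h1, h2, h3, h4⟩
    constructor
    · intro i _ t ht
      obtain ⟨j, hj, h5⟩ := h1 i i.2 t (by rw [hc]; exact ht)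
      exact ⟨⟨j, hj⟩, Set.mem_univ _, by rw [← hc]; exact h5⟩
    · intro i _ j _ hij
      rw [← hr, ← hr]
      exact h2 i i.2 j j.2 (by rw [hc, hc]; exact hij)
    · intro i _ j _ hji
      rw [← hc, ← hc]
      exact h3 i i.2 j j.2 ((hr _ _).2 hji)
    · intro i _ j _ hij
      rcases h4 i i.2 j j.2 with h5 | ⟨u, hu, h5⟩
      · rw [hc, hc] at h5
        exact absurd hij h5
      · refine ⟨⟨u, hu⟩, Set.mem_univ _, ?_⟩
        rw [← hc, ← hc, ← hr]
        rcases h5 with h5 | h5
        · exact Or.inl h5
        · exact Or.inr ⟨h5.1, h5.2.1, fun h6 => h5.2.2 (congrArg Fin.val h6)⟩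
  · rintro ⟨h1, h2, h3, h4⟩
    refine ⟨fun i hi t ht => ?_, fun i hi j hj hij => ?_, fun i hi j hj hji => ?_,
      fun i hi j hj => ?_⟩
    · obtain ⟨j, -, h5⟩ := h1 ⟨i, hi⟩ (Set.mem_univ _) t (by rw [← hc]; exact ht)
      exact ⟨j, j.2, by rw [hc]; exact h5⟩
    · have := h2 ⟨i, hi⟩ (Set.mem_univ _) ⟨j, hj⟩ (Set.mem_univ _)
        (by rw [← hc, ← hc]; exact hij)
      rwa [← hr, ← hr] at this
    · have := h3 ⟨i, hi⟩ (Set.mem_univ _) ⟨j, hj⟩ (Set.mem_univ _) ((hr _ _).1 hji)
      rwa [← hc, ← hc] at this
    · by_cases hij : lev n w (o + i) < lev n w (o + j)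
      · right
        obtain ⟨u, -, h5⟩ := h4 ⟨i, hi⟩ (Set.mem_univ _) ⟨j, hj⟩ (Set.mem_univ _)
          (by rw [← hc, ← hc]; exact hij)
        rw [← hc, ← hc, ← hr] at h5
        refine ⟨u, u.2, ?_⟩
        rcases h5 with h5 | h5
        · exact Or.inl h5
        · exact Or.inr ⟨h5.1, h5.2.1, fun h6 => h5.2.2 (Fin.ext h6)⟩
      · exact Or.inl hij

/-- Test of certificates. -/
def cert (x w : List Bool) : Bool :=
  okc x w 0 && (okc x w (dim x) && (List.range (dim x)).any (fun i =>
    (List.range (dim x)).all (fun j =>
      decide (lev (dim x) w (dim x + j) < lev (dim x) w i))))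

theorem cert_iff {n : ℕ} (P : PartialOrder (Fin n)) :
    (∃ w : List Bool, w.length ≤ 2 * dim (posetCode P) * dim (posetCode P) ∧
      cert (posetCode P) w = true) ↔ ¬ @IsGreedy (Fin n) P Set.univ := by
  letI := P
  rw [not_greedy_iff]
  have hn := dim_code P
  constructor
  · rintro ⟨w, -, h⟩
    unfold cert at h
    rw [hn] at h
    simp only [Bool.and_eq_true, decide_eq_true_eq, List.all_eq_true, List.any_eq_true,
      List.mem_range] at h
    obtain ⟨h1, h2, i, hi, h3⟩ := h
    refine ⟨fun i => lev n w i, fun i => lev n w (n + i), ?_, ?_, ⟨i, hi⟩, fun j => h3 j j.2⟩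
    · exact (okc_iff hn (fun i j => ent_code P i j) (fun i => by rw [Nat.zero_add])).1 h1
    · exact (okc_iff hn (fun i j => ent_code P i j) (fun i => rfl)).1 h2
  · rintro ⟨c, c', h1, h2, i, hi⟩
    have b1 : ∀ x, c x < n := fun x => by simpa using h1.lt_card x
    have b2 : ∀ x, c' x < n := fun x => by simpa using h2.lt_card x
    obtain ⟨w, hw, h3⟩ := exists_table n (2 * n)
      (fun k => if h : k < n then c ⟨k, h⟩ else if h' : k - n < n then c' ⟨k - n, h'⟩ else 0)
      (fun k _ => by
        split_ifs
        · exact (b1 _).le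
        · exact (b2 _).le
        · exact Nat.zero_le _)
    have e1 : ∀ k : Fin n, lev n w (0 + k) = c k := by
      intro k
      rw [Nat.zero_add, h3 k (by have := k.2; omega), dif_pos k.2]
    have e2 : ∀ k : Fin n, lev n w (n + k) = c' k := by
      intro k
      rw [h3 (n + k) (by have := k.2; omega), dif_neg (by omega)]
      simp only [Nat.add_sub_cancel_left, k.2, dif_pos]
    refine ⟨w, by rw [hn, hw], ?_⟩
    unfold cert
    rw [hn]
    simp only [Bool.and_eq_true, decide_eq_true_eq, List.all_eq_true, List.any_eq_true,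
      List.mem_range]
    refine ⟨(okc_iff hn (fun i j => ent_code P i j) e1).2 h1,
      (okc_iff hn (fun i j => ent_code P i j) e2).2 h2, i, i.2, fun j hj => ?_⟩
    have h4 := hi ⟨j, hj⟩
    rw [← e1, ← e2] at h4
    simpa using h4

theorem compl_iff (x : List Bool) : GreedyRecognition x = false ↔
    (!valid x) = true ∨ ∃ w : List Bool, w.length ≤ 2 * dim x * dim x ∧
      cert x w = true ∧ valid x = true := by
  by_cases hv : valid x = true
  · obtain ⟨n, P, rfl⟩ := (valid_iff x).1 hv
    rw [← Bool.not_eq_true, greedyRecognition_code, ← cert_iff]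
    simp [hv]
  · have h1 : GreedyRecognition x = false := by
      rw [← Bool.not_eq_true]
      intro h
      apply hv
      classical
      simp only [GreedyRecognition, decide_eq_true_eq] at h
      obtain ⟨n, P, h1, -⟩ := h
      exact (valid_iff x).2 ⟨n, P, h1⟩
    simp [h1, hv]

section ptf

variable {α : Type} [Enc α]

@[fun_prop]
theorem ptf_dim {x : α → List Bool} (h : PTF x) : PTF (fun a => dim (x a)) := by
  unfold dim
  fun_prop

@[fun_prop]
theorem ptf_ent {x : α → List Bool} {i j : α → ℕ} (h : PTF x) (hi : PTF i) (hj : PTF j) :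
    PTF (fun a => ent (x a) (i a) (j a)) := by
  unfold ent
  fun_prop

@[fun_prop]
theorem ptf_mat {x : α → List Bool} (h : PTF x) : PTF (fun a => mat (x a)) := by
  unfold mat
  fun_prop

@[fun_prop]
theorem ptf_valid {x : α → List Bool} (h : PTF x) : PTF (fun a => valid (x a)) := by
  have h1 : PTF (fun a => bitEncode (mat (x a))) :=
    (EncP.list (EncP.list EncP.bool)).apply (ptf_mat h)
  unfold valid
  refine PTF.and (h1.eq h) ?_
  fun_prop

@[fun_prop]
theorem ptf_lev {n i : α → ℕ} {w : α → List Bool} (hn : PTF n) (hw : PTF w) (hi : PTF i) :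
    PTF (fun a => lev (n a) (w a) (i a)) := by
  unfold lev
  fun_prop

@[fun_prop]
theorem ptf_okc {x w : α → List Bool} {o : α → ℕ} (h : PTF x) (hw : PTF w) (ho : PTF o) :
    PTF (fun a => okc (x a) (w a) (o a)) := by
  unfold okc
  fun_prop

@[fun_prop]
theorem ptf_cert {x w : α → List Bool} (h : PTF x) (hw : PTF w) :
    PTF (fun a => cert (x a) (w a)) := by
  unfold cert
  fun_prop

end ptf

/-- Recognition of greedy posets is in coNP. -/
theorem mem_coNP : GreedyRecognition ∈ N68a2faeb.coNP := by
  show GreedyRecognitionᶜ ∈ N68a2faeb.NP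
  refine NPd.mem_NP (NPd.congr (P := fun x => (!valid x) = true ∨
    ∃ w : List Bool, w.length ≤ 2 * dim x * dim x ∧ (cert x w = true ∧ valid x = true)) ?_
    fun x => ?_)
  · refine NPd.or (NPd.of_ptf (by fun_prop)) (NPd.ex (P := fun x w => cert x w = true ∧
      valid x = true) (NPd.and (NPd.of_ptf (by fun_prop)) (NPd.of_ptf (by fun_prop)))
      (by fun_prop))
  · rw [← compl_iff]
    simp

end Pool.Agent.Work.MP_02c6ed_co
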